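import Pool.Agent.H227.AN.A1
import Pool.Agent.H227.AN.A2
import Pool.Agent.H227.AN.B7
import Pool.Agent.H227.AN.B8
import Pool.Agent.H227.AN.B9
import Pool.Agent.H920.AN.A346
import Pool.Agent.H920.AN.A5
import Pool.Agent.H920.AN.C56
import Pool.Agent.H920.AN.C7
import Pool.Agent.H79.AN.B1
import Pool.Agent.H79.AN.B45
import Pool.Agent.H79.AN.B10
import Pool.Agent.H79.AN.B11
import Pool.Agent.H79.AN.B1213
import Pool.Agent.H161.AN.B23
import Pool.Agent.H21.AN.D0
import Pool.Agent.H21.AN.D1
import Pool.Agent.H388.AN.D2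
import Pool.Agent.H127.AN.D3
import Pool.Agent.H364.AN.C1
import Pool.Agent.H370.AN.C2
import Pool.Agent.H390.AN.E2
import Pool.Agent.H672.AN.E6
import Pool.Agent.H331.AN.E3

set_option autoImplicit false
set_option linter.unusedSectionVars false

/-! # MP_aa4716_al : assembly, first part -/

namespace Pool.Agent.H343.AN

open Pool.Agent.TH68 Pool.Agent.Helper97.Hyp

theorem toolA : ToolA where
  a1 := H227.AN.a1
  a2 := H227.AN.a2
  a3 := H920.AN.a3
  a4 := H920.AN.a4
  a5 := H920.AN.a5 H227.AN.a1 H227.AN.a2 H920.AN.a4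
  a6 := H920.AN.a6

theorem t_near : S_near := H79.AN.near
theorem t_redpd : S_redpd := H161.AN.redpd t_near
theorem t_wind : S_wind := H161.AN.wind
theorem t_behr : S_behr := H79.AN.behr t_near
theorem t_order : S_order := H79.AN.order t_behr
theorem t_odist : S_odist := H79.AN.odist t_near
theorem t_entry : S_entry := H227.AN.entry t_near t_redpd t_wind t_order
theorem t_entatt : S_entatt := H79.AN.entatt

theorem toolB : ToolB where
  near := t_near
  redpd := t_redpd
  wind := t_wind
  behr := t_behr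
  order := t_order
  odist := t_odist
  mono := H227.AN.mono t_near
  entry := t_entry
  arc := H227.AN.arc
  exit := H79.AN.exit t_near t_redpd t_entry
  ax := H79.AN.ax t_near t_redpd t_wind t_order t_odist
  entatt := t_entatt
  entlev := H79.AN.entlev t_near t_entry t_entatt

theorem t_c1 : S_c1 := H364.AN.c1 toolB
theorem t_c2 : S_c2 := H370.AN.c2 t_c1
theorem t_poly : S_poly := H21.AN.poly
theorem t_d1 : S_d1 := H21.AN.d1 toolB
theorem t_d2 : S_d2 := H388.AN.D2.d2 toolB t_poly
theorem t_d3 : S_d3 := H127.AN.d3 toolB t_d1 t_d2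
theorem t_e2 : S_e2 := H390.AN.E2.e2 toolB
theorem t_orb : S_orb := H672.AN.E6.orb

end Pool.Agent.H343.AN
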