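import Pool.Agent.H343.AN.Defs

set_option autoImplicit false
set_option linter.unusedSectionVars false

/-! `t7` of `TH68/T7.lean` with the explicit norm of the quotient. -/

namespace Pool.Agent.H343.AN

open Pool.Agent.TH68 Pool.Agent.Helper97.Hyp

variable {Γ : Type*} [Group Γ] {W : WNorm Γ} {𝒜 : Type*} [MulAction Γ 𝒜]

/-- the quotient by a spinning family is hyperbolic -/
theorem t7q (Y : Sys Γ W 𝒜) (R : Spn Y) (hM : 2000 * Y.θ ≤ R.M) (W' : WNorm (Γ ⧸ R.N))
    (hq : Quo W R.N W') : ∃ δ' : ℝ, GHyp (Pt W') δ' := by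
  obtain ⟨hW1, hW2⟩ := hq
  obtain ⟨R₁, hR₁⟩ := R.cob
  have hδ := Y.hδ
  have hθ := Y.hθ
  set R₀ : ℝ := max R₁ 0 with hR₀_def
  have hR₀ : 0 ≤ R₀ := le_max_right _ _
  have hR : ∀ A, ∀ p ∈ Y.S A, ∀ q ∈ Y.S A, ∃ r ∈ R.G A, dist p (r • q) ≤ R₀ := by
    intro A p hp q hq
    obtain ⟨r, hr, h⟩ := hR₁ A p hp q hq
    exact ⟨r, hr, h.trans (le_max_left _ _)⟩
  -- the projection to the quotient
  let π : Pt W → Pt W' := fun g => pt W' ((g.out : Γ) : Γ ⧸ R.N)
  have hπ : ∀ x y : Pt W, dist (π x) (π y) ≤ dist x y := by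
    intro x y
    have h := hW1 (x.out⁻¹ * y.out)
    rw [dist_def, dist_def]
    exact_mod_cast h
  have hπn : ∀ n ∈ R.N, ∀ x : Pt W, π (n • x) = π x := by
    intro n hn x
    change pt W' (((n * x.out : Γ) : Γ ⧸ R.N)) = pt W' ((x.out : Γ) : Γ ⧸ R.N)
    congr 1
    rw [eq_comm, QuotientGroup.eq]
    have := R.normal.conj_mem n hn x.out⁻¹
    rwa [inv_inv, mul_assoc] at this
  have hπe : ∀ x y : Pt W, π x = π y → ∃ n ∈ R.N, y = n • x := by
    intro x y h
    have h1 : ((x.out : Γ) : Γ ⧸ R.N) = ((y.out : Γ) : Γ ⧸ R.N) := h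
    rw [QuotientGroup.eq] at h1
    have := R.normal.conj_mem _ h1 x.out
    refine ⟨y.out * x.out⁻¹, by simpa [mul_assoc] using this, ?_⟩
    change y.out = y.out * x.out⁻¹ * x.out
    rw [inv_mul_cancel_right]
  have hlift : ∀ (x : Pt W) (y : Pt W'), ∃ y' : Pt W, π y' = y ∧ dist x y' = dist (π x) y := by
    intro x y
    obtain ⟨g, hg⟩ := QuotientGroup.mk_surjective y.out
    obtain ⟨n, hn, h⟩ := hW2 (x.out⁻¹ * g)
    refine ⟨pt W (g * n), ?_, ?_⟩
    · change ((g * n : Γ) : Γ ⧸ R.N) = y.out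
      rw [← hg, eq_comm, QuotientGroup.eq]
      simpa using hn
    · rw [dist_def, dist_def, out_pt, ← mul_assoc, h]
      congr 2
      change _ = ((x.out : Γ) : Γ ⧸ R.N)⁻¹ * y.out
      rw [← hg]
      rfl
  have hred : ∀ x y : Pt W, dist x y = dist (π x) (π y) → Red R.N x y := by
    intro x y h n hn
    have := hπ x (n • y)
    rw [hπn n hn] at this
    linarith
  have hsub : ∀ x y t : Pt W, dist x y = dist (π x) (π y) → exc x y t = 0 →
      exc (π x) (π y) (π t) = 0 := by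
    intro x y t h ht
    have h1 := hπ x t
    have h2 := hπ t y
    have h3 := exc_nonneg (π x) (π y) (π t)
    unfold exc at *
    linarith
  refine ⟨2 * (500 * Y.θ + R₀) + 2, hyp_of_slim W' (500 * Y.θ + R₀) ?_⟩
  intro x y z p hp
  obtain ⟨x', hx', -⟩ := hlift (pt W 1) x
  obtain ⟨p', hp', hp1⟩ := hlift x' p
  obtain ⟨y', hy', hy1⟩ := hlift p' y
  obtain ⟨z', hz', hz1⟩ := hlift y' z
  obtain ⟨w', hw', hw1⟩ := hlift z' x
  obtain ⟨n, hn, hnw⟩ := hπe x' w' (by rw [hx', hw'])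
  have h1 : dist x' y' = dist (π x') (π y') := by
    apply le_antisymm _ (hπ x' y')
    have h2 := dist_triangle x' p' y'
    rw [hp1, hy1] at h2
    rw [hx', hp'] at h2
    rw [hx', hy']
    unfold exc at hp
    linarith
  have h2 : exc x' y' p' = 0 := by
    unfold exc at *
    rw [h1, hp1, hy1, hx', hy', hp']
    exact hp
  have hc : Cfg R.N (200 * Y.θ) x' y' y' z' z' w' := by
    refine ⟨hred _ _ h1, hred _ _ ?_, hred _ _ ?_, by rw [dist_self]; linarith,
      by rw [dist_self]; linarith, n, hn, hnw⟩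
    · rw [hz1, hz']
    · rw [hw1, hw']
  obtain ⟨n', hn', t, ht, h3⟩ := claim Y R hM hR₀ hR rfl _ _ _ _ _ _ _ hc rfl p' h2
  refine ⟨π t, ?_, ?_⟩
  · have h4 := hπ p' (n' • t)
    rw [hπn n' hn', hp'] at h4
    linarith
  · rcases ht with ht | ht
    · right
      have := hsub y' z' t (by rw [hz1, hz']) ht
      rwa [hy', hz'] at this
    · left
      have := hsub z' w' t (by rw [hw1, hw']) ht
      rw [hz', hw'] at this
      rwa [exc_comm]


end Pool.Agent.H343.AN
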