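import Pool.Agent.H343.AN.StF
import Pool.Agent.H343.AN.T7q

set_option autoImplicit false
set_option linter.unusedSectionVars false

/-! F2 : one step of the construction -/

namespace Pool.Agent.H343.AN

open Pool.Agent.TH68 Pool.Agent.Helper97.Hyp

/-- no involutions in the quotient -/
lemma odd_quot {Γ : Type} [Group Γ] {W : WNorm Γ} (D : RD Γ W) {m : ℕ} (hm : m.Prime) (hm2 : m ≠ 2)
    {N : Subgroup Γ} [hNn : N.Normal] (hN : N = D.nk m) (hΓ : KGrp Γ) (hodd : ∀ x : Γ, orderOf x ≠ 2)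
    (h1 : ∀ u : Γ, ∀ k : ℕ, 0 < k → u ^ k ∈ N →
      ∃ n ∈ N, IsOfFinOrder (n * u) ∨ ∃ A : Γ ⧸ D.E, (n * u) • A = A) :
    ∀ x : Γ ⧸ N, orderOf x ≠ 2 := by
  intro x hx
  have hxf : IsOfFinOrder x := by
    rw [← orderOf_pos_iff, hx]; norm_num
  have hx1 : x ≠ 1 := by
    rintro rfl
    rw [orderOf_one] at hx
    omega
  obtain ⟨v, rfl, hv⟩ := D.lift_ord hΓ.ord h1 hxf
  rcases hv with hv | ⟨h, t, rfl⟩
  · rcases ord_mk_of_prime (N := N) hv with h5 | h5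
    · exact absurd h5 hx1
    · exact hodd v (by rw [← h5.2, hx])
  · have h5 : ((h * D.g ^ t * h⁻¹ : Γ) : Γ ⧸ N) ^ m = 1 := by
      rw [← QuotientGroup.mk_pow, mk_eq_one, conj_pow]
      apply hNn.conj_mem
      rw [← zpow_natCast, ← zpow_mul, mul_comm, zpow_mul]
      exact Subgroup.zpow_mem _ (D.pow_mem' hN) _
    have h6 := orderOf_dvd_of_pow_eq_one h5
    rw [hx] at h6
    exact hm2 ((Nat.prime_dvd_prime_iff_eq Nat.prime_two hm).mp h6).symm

theorem f2 (hgeo : S_geo) (hf1 : S_f1) : S_f2 := by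
  intro Γ _ W hc x hx
  classical
  obtain ⟨δ', hδ'⟩ := hc.hyp
  obtain ⟨σ', hσ'⟩ := hc.ac
  set δ := max δ' 1 with hδdef
  have hδ : 1 ≤ δ := le_max_right _ _
  have hyp : GHyp (Pt W) δ := GHyp_mono hδ' (le_max_left _ _)
  set σ := max σ' 1 with hσdef
  have hσ1 : 1 ≤ σ := le_max_right _ _
  have hσ : ACol W σ 7 := fun T hT a => hσ' T ((le_max_left _ _).trans hT) a
  -- the root
  obtain ⟨g, hg, s, hs⟩ := ez hc.kgrp.hyp hx (by
    intro y k hk hy hyx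
    by_contra hy1
    have hp := (hc.kgrp.ord y hy).resolve_left hy1
    have h1 := hc.kgrp.cent y hp (hc.odd y) _ hyx
    apply hx
    obtain ⟨t, ht⟩ := h1
    have ht' : y ^ t = x ^ k := ht
    have h2 : IsOfFinOrder (x ^ k) := by
      rw [← ht']; exact hy.zpow
    rw [isOfFinOrder_iff_zpow_eq_one] at h2 ⊢
    obtain ⟨n, hn, hn1⟩ := h2
    exact ⟨k * n, mul_ne_zero hk hn, by rw [zpow_mul, hn1]⟩)
  have hs' : g ^ s = x := hs
  obtain ⟨J, hJ⟩ := lox_of_inf hyp hδ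
  obtain ⟨k, hk1, -, o, ho⟩ := hJ g hg.inf
  let D : RD Γ W := ⟨δ, hδ, o, g, k, hk1, ho, hg⟩
  obtain ⟨Y, hY⟩ := hf1 D hc.odd
  obtain ⟨M1, hM1⟩ := t1 D.sys
  obtain ⟨m₀, hm₀⟩ := step hc.kgrp hg (B := ∅) Set.finite_empty (F := ∅) Set.finite_empty
    (by simp) (by simp)
  refine ⟨10 ^ 6 * max Y.θ σ, fun R' => ?_⟩
  obtain ⟨m₁, hm₁⟩ := hY (10 ^ 16 * max Y.θ σ)
  have hθ : 1 ≤ D.θ := le_trans D.sys.hδ D.sys.hθ
  set K := max (max M1 (R' + 51 * D.θ)) (max (2000 * D.θ) (dist D.o (D.g • D.o) + 51 * D.θ + 1))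
    with hK
  obtain ⟨m₂, hm₂⟩ := D.low_tendsto K
  obtain ⟨m, hm, hmp⟩ := Nat.exists_infinite_primes (max (max m₀ m₁) (max m₂ 3))
  have hm3 : 3 ≤ m := le_trans (le_trans (le_max_right _ _) (le_max_right _ _)) hm
  have hlow := hm₂ m (le_trans (le_trans (le_max_left _ _) (le_max_right _ _)) hm)
  obtain ⟨h5, -, -⟩ := hm₀ m (le_trans (le_trans (le_max_left _ _) (le_max_left _ _)) hm) hmp
  obtain ⟨R, hRN, hRρ⟩ := hm₁ m (le_trans (le_trans (le_max_right _ _) (le_max_left _ _)) hm)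
  have k1 : M1 ≤ D.low m := le_trans (le_trans (le_max_left _ _) (le_max_left _ _)) hlow
  have k2 : R' + 51 * D.θ ≤ D.low m :=
    le_trans (le_trans (le_max_right _ _) (le_max_left _ _)) hlow
  have k3 : 2000 * D.θ ≤ D.low m :=
    le_trans (le_trans (le_max_left _ _) (le_max_right _ _)) hlow
  have k4 : dist D.o (D.g • D.o) + 51 * D.θ + 1 ≤ D.low m :=
    le_trans (le_trans (le_max_right _ _) (le_max_right _ _)) hlow
  set R₁ : Spn D.sys := D.spn hmp (by omega) (by linarith) (by linarith) with hR₁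
  have hR₁M : R₁.M = D.low m := rfl
  have hnorm : (D.nk m).Normal := D.nk_normal
  have hgN : g ^ m ∈ D.nk m := D.pow_mem_nk
  refine ⟨m, hmp.pos, D.nk m, hnorm, ?_, ?_, ?_⟩
  · have h8 : x ^ m = (g ^ m) ^ s := by
      rw [← hs', ← zpow_natCast, ← zpow_mul, mul_comm, zpow_mul, zpow_natCast]
    rw [h8]
    exact Subgroup.zpow_mem _ hgN _
  · intro n hn hn1
    have h1 := D.nk_far (by linarith) hn hn1 (pt W 1)
    have h2 : dist (pt W 1) (n • pt W 1) = (W.ℓ n : ℝ) := by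
      rw [dist_def, smul_out, out_pt, inv_one, one_mul, mul_one]
    rw [h2] at h1
    linarith
  · obtain ⟨W', hW1, hW2⟩ := quot_norm W (D.nk m)
    have hq : Quo W (D.nk m) W' := ⟨hW1, hW2⟩
    have key : ∀ (N : Subgroup Γ) [N.Normal] (W' : WNorm (Γ ⧸ N)), N = R.N → Quo W N W' →
        ACol W' (10 ^ 6 * max Y.θ σ) (10 ^ 7) ∧ ACol W' (8 * R.ρ) 7 := by
      intro N _ W' hN hq
      subst hN
      have h1 : Y.θ ≤ max Y.θ σ := le_max_left _ _
      have h2 : σ ≤ max Y.θ σ := le_max_right _ _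
      exact hgeo Y R W' hq hσ hσ1 (by linarith) (by linarith)
    have key2 : ∀ (N : Subgroup Γ) [N.Normal], N = Subgroup.normalClosure {g ^ m} →
        KGrp (Γ ⧸ N) := by
      intro N _ hN
      subst hN
      exact h5
    obtain ⟨a1, a2⟩ := key (D.nk m) W' hRN.symm hq
    refine ⟨W', hq, ⟨?_, ?_, ?_, ⟨_, a2⟩⟩, a1⟩
    · exact t7q D.sys R₁ (by rw [hR₁M]; exact k3) W' hq
    · exact key2 _ D.nk_eq
    · exact odd_quot D hmp (by omega) rfl hc.kgrp hc.odd (fun u k hk hu => hM1 R₁ k1 u k hk hu)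

end Pool.Agent.H343.AN
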