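import Pool.Agent.H343.AN.StF

set_option autoImplicit false
set_option linter.unusedSectionVars false

/-! The final assembly -/

namespace Pool.Agent.H343.AN

open Pool.Agent.TH68 Pool.Agent.Helper97.Hyp

/-- a nontrivial double commutator in the free group -/
noncomputable def cc : FreeGroup (Fin 2) :=
  cmm (cmm (FreeGroup.of 0) (FreeGroup.of 1)) (cmm (FreeGroup.of 0) (FreeGroup.of 1 * FreeGroup.of 1))

lemma map_cmm {G H : Type*} [Group G] [Group H] (f : G →* H) (x y : G) :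
    f (cmm x y) = cmm (f x) (f y) := by
  unfold cmm
  rw [map_mul, map_mul, map_mul, map_inv, map_inv]

/-- two permutations -/
def pa : Equiv.Perm (Fin 4) := ⟨![0, 1, 3, 2], ![0, 1, 3, 2], by decide, by decide⟩
/-- two permutations -/
def pb : Equiv.Perm (Fin 4) := ⟨![1, 2, 0, 3], ![2, 0, 1, 3], by decide, by decide⟩

lemma pp : (cmm (cmm pa pb) (cmm pa (pb * pb))) 0 = 1 := by decide

lemma cc_ne : cc ≠ 1 := by
  intro h
  let f : FreeGroup (Fin 2) →* Equiv.Perm (Fin 4) := FreeGroup.lift ![pa, pb]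
  have h1 : f cc = 1 := by rw [h, map_one]
  unfold cc at h1
  have e0 : f (FreeGroup.of 0) = pa := FreeGroup.lift_apply_of
  have e1 : f (FreeGroup.of 1) = pb := FreeGroup.lift_apply_of
  rw [map_cmm, map_cmm, map_cmm, map_mul, e0, e1] at h1
  have h2 := pp
  rw [h1] at h2
  exact absurd h2 (by decide)

theorem fin (h3 : S_f3) (h4 : S_f4) (h6 : S_f6) (h7 : S_f7) :
    ∃ (G : Type) (_ : Group G), Infinite G ∧ (∀ g : G, IsOfFinOrder g) ∧
      ∃ S : Finset G, Subgroup.closure (S : Set G) = ⊤ ∧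
        ∃ n : ℕ, ∃ C : ℝ, 0 < C ∧ ∀ r : ℝ, 0 < r →
          ∃ U : Fin (n + 1) → Set (Set G),
            (∀ x : G, ∃ i : Fin (n + 1), ∃ A ∈ U i, x ∈ A) ∧
            (∀ i : Fin (n + 1), ∀ A ∈ U i, ∀ x ∈ A, ∀ y ∈ A,
              (((SimpleGraph.fromRel (fun x y : G => x⁻¹ * y ∈ (S : Set G))).dist x y : ℕ) : ℝ)
                ≤ C * r) ∧
            (∀ i : Fin (n + 1), ∀ A ∈ U i, ∀ B ∈ U i, A ≠ B → ∀ x ∈ A, ∀ y ∈ B,
              r < (((SimpleGraph.fromRel (fun x y : G => x⁻¹ * y ∈ (S : Set G))).dist x y : ℕ) : ℝ))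
    := by
  classical
  obtain ⟨W, hW, hW1, hW2⟩ := h4
  have : Countable (FreeGroup (Fin 2)) := by
    have := Quot.mk_surjective (r := @FreeGroup.Red.Step (Fin 2))
    exact Function.Surjective.countable this
  obtain ⟨K, hKn, hcK, hord, hodd, hcent, V, hV, hcol⟩ := h6 W hW cc cc_ne
  refine ⟨FreeGroup (Fin 2) ⧸ K, inferInstance, ?_, ?_, ?_⟩
  · apply h3 hord hodd hcent (FreeGroup.of 0 : FreeGroup (Fin 2)) (FreeGroup.of 1 : FreeGroup (Fin 2))
      (FreeGroup.of 0 : FreeGroup (Fin 2)) (FreeGroup.of 1 * FreeGroup.of 1 : FreeGroup (Fin 2))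
    intro h
    apply hcK
    rw [← mk_eq_one (N := K)]
    have h1 : QuotientGroup.mk' K cc = 1 := by
      unfold cc
      rw [map_cmm, map_cmm, map_cmm]
      exact h
    exact h1
  · intro g
    rcases hord g with h | h
    · rw [h]; exact IsOfFinOrder.one
    · rw [← orderOf_pos_iff]; exact h.pos
  · have h8 := h7 V (Finset.univ.image fun i : Fin 2 => ((FreeGroup.of i : FreeGroup (Fin 2)) :
      FreeGroup (Fin 2) ⧸ K)) (by
        intro s hs
        rw [Finset.mem_image] at hs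
        obtain ⟨i, -, rfl⟩ := hs
        exact (hV.le _).trans (hW2 i).le) (by
        intro q hq
        obtain ⟨g, rfl⟩ := QuotientGroup.mk_surjective q
        obtain ⟨n, hn, hgn⟩ := hV.ex g
        rw [hq] at hgn
        have e : ((g * n : FreeGroup (Fin 2)) : FreeGroup (Fin 2) ⧸ K) = g := by
          rw [QuotientGroup.mk_mul, mk_eq_one.mpr hn, mul_one]
        obtain ⟨i, hi | hi⟩ := hW1 _ hgn
        · left
          rw [Finset.mem_image]
          exact ⟨i, Finset.mem_univ _, by rw [← hi, e]⟩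
        · right
          rw [Finset.mem_image]
          exact ⟨i, Finset.mem_univ _, by rw [← hi, QuotientGroup.mk_inv, e]⟩)
    exact ⟨_, h8.1, h8.2 hcol⟩

end Pool.Agent.H343.AN
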