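import Pool.Agent.H343.AN.AsmA
import Pool.Agent.H343.AN.F2
import Pool.Agent.H343.AN.Fin
import Pool.Agent.H338.AN.C3
import Pool.Agent.H399.AN.C4
import Pool.Agent.H553.AN.E1
import Pool.Agent.H388.AN.E4
import Pool.Agent.H672.AN.E7
import Pool.Agent.H97.AN.E89
import Pool.Agent.H161.AN.E5
import Pool.Agent.H79.AN.F6
import Pool.Agent.H370.AN.F3
import Pool.Agent.H390.AN.F7

set_option autoImplicit false
set_option linter.unusedSectionVars false

/-! # MP_aa4716_al : assembly, second part -/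

namespace Pool.Agent.H343.AN

open Pool.Agent.TH68 Pool.Agent.Helper97.Hyp

theorem t_c3 : S_c3 := H338.AN.c3 toolB
theorem t_c4 : S_c4 := H399.AN.c4 toolB
theorem t_c5 : S_c5 := H920.AN.c5 toolA t_c4
theorem t_c6 : S_c6 := H920.AN.c6 toolA t_c5
theorem t_c7 : S_c7 := H920.AN.c7 toolA t_c2 t_c3 t_c6
theorem t_e1 : S_e1 := H553.AN.e1 toolB t_d3
theorem t_e3 : S_e3 := H331.AN.e3 toolB t_e1 t_e2
theorem t_e4 : S_e4 := H388.AN.E4.e4 toolB t_d3 t_e2 t_e3
theorem t_e5 : S_e5 := H161.AN.e5 toolB t_e2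
theorem t_e7 : S_e7 := H672.AN.E7.e7 toolB t_orb
theorem t_e8 : S_e8 := H97.AN.e8 toolA t_e2 t_e4 t_e5 t_e7 t_c7
theorem t_geo : S_geo := H97.AN.geo toolA t_e8 t_c7
theorem t_f3 : S_f3 := H370.AN.f3
theorem t_f7 : S_f7 := H390.AN.F7.f7

end Pool.Agent.H343.AN
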