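import Pool.Agent.H343.AN.StF

set_option autoImplicit false

/-!
# MP_aa4716_al, F4: the free group of rank 2
-/

namespace Pool.Agent.H343.AN.F4

open Pool.Agent.H343.AN Pool.Agent.TH68 Pool.Agent.Helper97.Hyp

/-- trees: one colour is enough for the annuli -/
theorem f4a : S_f4a := by
  intro Γ _ W hW T hT a
  refine ⟨fun _ => 0, fun x y hxy => ?_⟩
  have key : x = y ∨ (x ∈ Ann W a T ∧ y ∈ Ann W a T ∧
      2 * a - T ≤ dist (pt W 1) x + dist (pt W 1) y - dist x y) := by
    induction hxy with
    | refl => exact Or.inl rfl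
    | @tail b c h1 h2 ih =>
      obtain ⟨hb, hc, -, hbc⟩ := h2
      have h3 : 2 * a - T ≤ dist (pt W 1) b + dist (pt W 1) c - dist b c := by
        have := hb.1
        have := hc.1
        linarith
      right
      rcases ih with rfl | ⟨hx, -, h4⟩
      · exact ⟨hb, hc, h3⟩
      · refine ⟨hx, hc, ?_⟩
        have h5 := hW.cases x c b (pt W 1)
        rw [dist_comm b (pt W 1), dist_comm c (pt W 1), dist_comm x (pt W 1), dist_comm c b] at h5
        rcases h5 with h5 | h5 <;> linarith
  rcases key with rfl | ⟨hx, hy, h⟩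
  · rw [dist_self]
    linarith
  · have := hx.2
    have := hy.2
    linarith

/-- the length of the longest common prefix -/
def lcp : List (Fin 2 × Bool) → List (Fin 2 × Bool) → ℕ
  | a :: l, b :: l' => if a = b then lcp l l' + 1 else 0
  | _, _ => 0

theorem lcp_nil (l : List (Fin 2 × Bool)) : lcp l [] = 0 := by
  cases l <;> rfl

theorem nil_lcp (l : List (Fin 2 × Bool)) : lcp [] l = 0 := rfl

theorem lcp_cons (a b : Fin 2 × Bool) (l l' : List (Fin 2 × Bool)) :
    lcp (a :: l) (b :: l') = if a = b then lcp l l' + 1 else 0 := rfl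

theorem lcp_tri (Z : List (Fin 2 × Bool)) : ∀ X Y : List (Fin 2 × Bool),
    lcp X Z ≤ lcp X Y ∨ lcp Y Z ≤ lcp X Y := by
  induction Z with
  | nil =>
    intro X Y
    left
    rw [lcp_nil]
    exact Nat.zero_le _
  | cons c Z ih =>
    intro X Y
    rcases X with _ | ⟨a, X⟩
    · left
      exact Nat.zero_le _
    rcases Y with _ | ⟨b, Y⟩
    · right
      exact Nat.zero_le _
    rw [lcp_cons, lcp_cons, lcp_cons]
    by_cases h1 : a = c
    · by_cases h2 : b = c
      · rw [if_pos h1, if_pos h2, if_pos (h1.trans h2.symm)]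
        rcases ih X Y with h | h
        · left; omega
        · right; omega
      · right
        rw [if_neg h2]
        exact Nat.zero_le _
    · left
      rw [if_neg h1]
      exact Nat.zero_le _

theorem reduced_invRev {L : List (Fin 2 × Bool)} (h : FreeGroup.IsReduced L) :
    FreeGroup.IsReduced (FreeGroup.invRev L) := by
  rw [FreeGroup.isReduced_iff_reduce_eq, FreeGroup.reduce_invRev, h.reduce_eq]

theorem len (X : List (Fin 2 × Bool)) : ∀ Y : List (Fin 2 × Bool), FreeGroup.IsReduced X →
    FreeGroup.IsReduced Y →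
    (FreeGroup.reduce (FreeGroup.invRev X ++ Y)).length + 2 * lcp X Y = X.length + Y.length := by
  induction X with
  | nil =>
    intro Y _ hY
    have e : FreeGroup.invRev ([] : List (Fin 2 × Bool)) ++ Y = Y := by
      simp [FreeGroup.invRev]
    rw [e, hY.reduce_eq, nil_lcp]
    simp
  | cons a X ih =>
    intro Y hX hY
    rcases Y with _ | ⟨b, Y⟩
    · rw [List.append_nil, (reduced_invRev hX).reduce_eq, FreeGroup.invRev_length, lcp_nil]
      simp
    · rw [lcp_cons]
      by_cases hab : a = b
      · subst hab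
        rw [if_pos rfl]
        have h1 : FreeGroup.reduce (FreeGroup.invRev (a :: X) ++ a :: Y) =
            FreeGroup.reduce (FreeGroup.invRev X ++ Y) := by
          apply FreeGroup.reduce.sound
          have e : ∀ L : List (Fin 2 × Bool), FreeGroup.mk (a :: L) =
              FreeGroup.mk [a] * FreeGroup.mk L := by
            intro L
            rw [FreeGroup.mul_mk]
            rfl
          rw [← FreeGroup.mul_mk, ← FreeGroup.mul_mk, ← FreeGroup.inv_mk, ← FreeGroup.inv_mk, e X,
            e Y]
          group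
        have h2 := ih Y (List.IsChain.tail hX) (List.IsChain.tail hY)
        rw [h1]
        simp only [List.length_cons]
        omega
      · rw [if_neg hab]
        have h1 : FreeGroup.IsReduced (FreeGroup.invRev (a :: X) ++ b :: Y) := by
          refine List.isChain_append.2 ⟨reduced_invRev hX, hY, ?_⟩
          intro x hx y hy hxy
          have e1 : x = (a.1, !a.2) := by
            have : FreeGroup.invRev (a :: X) = FreeGroup.invRev X ++ [(a.1, !a.2)] := by
              simp [FreeGroup.invRev]
            rw [this] at hx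
            simpa using hx.symm
          have e2 : y = b := by simpa using hy.symm
          subst e2
          rw [e1] at hxy ⊢
          have h2 : a.2 ≠ y.2 := fun h => hab (Prod.ext hxy h)
          show (!a.2) = y.2
          revert h2
          cases a.2 <;> cases y.2 <;> simp
        rw [h1.reduce_eq, List.length_append, FreeGroup.invRev_length]
        simp

theorem norm_inv_mul (x y : FreeGroup (Fin 2)) :
    FreeGroup.norm (x⁻¹ * y) + 2 * lcp x.toWord y.toWord = FreeGroup.norm x + FreeGroup.norm y := by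
  have h := len x.toWord y.toWord FreeGroup.isReduced_toWord FreeGroup.isReduced_toWord
  rw [← FreeGroup.toWord_inv, ← FreeGroup.toWord_mul] at h
  exact h

theorem norm_mk {L : List (Fin 2 × Bool)} (h : FreeGroup.IsReduced L) :
    FreeGroup.norm (FreeGroup.mk L) = L.length := by
  show (FreeGroup.mk L).toWord.length = _
  rw [FreeGroup.toWord_mk, h.reduce_eq]

/-- the word norm of the free group -/
def WF : WNorm (FreeGroup (Fin 2)) where
  ℓ := FreeGroup.norm
  one' := FreeGroup.norm_one
  eq_one _ h := FreeGroup.norm_eq_zero.1 h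
  inv' _ := FreeGroup.norm_inv_eq
  mul_le := FreeGroup.norm_mul_le
  geod g k hk := by
    have hr : FreeGroup.IsReduced g.toWord := FreeGroup.isReduced_toWord
    refine ⟨FreeGroup.mk (g.toWord.take k), FreeGroup.mk (g.toWord.drop k), ?_, ?_, ?_⟩
    · rw [FreeGroup.mul_mk, List.take_append_drop, FreeGroup.mk_toWord]
    · rw [norm_mk (List.IsChain.take hr k), List.length_take]
      exact min_eq_left hk
    · rw [norm_mk (List.IsChain.drop hr k), List.length_drop]
      have hk' : k ≤ g.toWord.length := hk
      show k + (g.toWord.length - k) = g.toWord.length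
      omega
  fin r := (List.finite_length_le (Fin 2 × Bool) r).preimage
    (FreeGroup.toWord_injective.injOn)

theorem WF_ell (g : FreeGroup (Fin 2)) : WF.ℓ g = FreeGroup.norm g := rfl

theorem hyp0 : GHyp (Pt WF) 0 := by
  intro x y z w
  set X : FreeGroup (Fin 2) := w.out⁻¹ * x.out with hX
  set Y : FreeGroup (Fin 2) := w.out⁻¹ * y.out with hY
  set Z : FreeGroup (Fin 2) := w.out⁻¹ * z.out with hZ
  have e : ∀ p q : Pt WF, dist p q =
      (FreeGroup.norm ((w.out⁻¹ * p.out)⁻¹ * (w.out⁻¹ * q.out)) : ℝ) := by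
    intro p q
    rw [dist_def, WF_ell]
    congr 2
    group
  have e' : ∀ p : Pt WF, dist p w = (FreeGroup.norm (w.out⁻¹ * p.out) : ℝ) := by
    intro p
    rw [dist_comm, dist_def, WF_ell]
  rw [e x y, e x z, e y z, e' z, e' y, e' x, ← hX, ← hY, ← hZ]
  have h1 := norm_inv_mul X Y
  have h2 := norm_inv_mul X Z
  have h3 := norm_inv_mul Y Z
  rw [mul_zero, add_zero]
  rcases lcp_tri Z.toWord X.toWord Y.toWord with h | h
  · refine le_max_of_le_left ?_
    have h4 : FreeGroup.norm (X⁻¹ * Y) + FreeGroup.norm Z ≤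
        FreeGroup.norm (X⁻¹ * Z) + FreeGroup.norm Y := by omega
    exact_mod_cast h4
  · refine le_max_of_le_right ?_
    have h4 : FreeGroup.norm (X⁻¹ * Y) + FreeGroup.norm Z ≤
        FreeGroup.norm X + FreeGroup.norm (Y⁻¹ * Z) := by omega
    exact_mod_cast h4

theorem f4b : S_f4b := by
  refine ⟨WF, hyp0, ?_, fun i => FreeGroup.norm_of i⟩
  intro g hg
  have h1 : g.toWord.length = 1 := hg
  obtain ⟨⟨i, b⟩, h2⟩ := List.length_eq_one_iff.1 h1
  refine ⟨i, ?_⟩
  have h3 : g = FreeGroup.mk [(i, b)] := by rw [← h2, FreeGroup.mk_toWord]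
  cases b
  · right
    rw [h3, FreeGroup.inv_mk]
    rfl
  · left
    rw [h3]
    rfl

theorem f4 : S_f4 := by
  obtain ⟨W, h1, h2, h3⟩ := f4b
  have tf : ∀ x : FreeGroup (Fin 2), IsOfFinOrder x → x = 1 := fun x hx => hx.eq_one'
  have np : ∀ x : FreeGroup (Fin 2), ¬ (orderOf x).Prime := by
    intro x hx
    have h4 : IsOfFinOrder x := orderOf_pos_iff.1 hx.pos
    rw [tf x h4, orderOf_one] at hx
    exact Nat.not_prime_one hx
  have n2 : ∀ x : FreeGroup (Fin 2), orderOf x ≠ 2 := fun x hx => np x (by rw [hx]; exact Nat.prime_two)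
  refine ⟨W, ⟨⟨0, h1⟩, ?_, n2, ⟨1, f4a W h1⟩⟩, h2, h3⟩
  exact ⟨⟨W, 0, h1⟩, fun x hx => Or.inl (tf x hx), fun x hx => absurd hx (np x),
    fun a b ha => absurd ha (n2 a)⟩

end Pool.Agent.H343.AN.F4
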