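import Pool.Agent.H343.AN.AsmB
import Pool.Agent.H216.AN.F5
import Pool.Agent.H343.AN.F4
import Pool.Agent.H227.AN.F1

set_option autoImplicit false
set_option linter.unusedSectionVars false

/-! # MP_aa4716_al : assembly, last part -/

namespace Pool.Agent.H343.AN

open Pool.Agent.TH68 Pool.Agent.Helper97.Hyp

theorem t_f1 : S_f1 := H227.AN.f1
theorem t_f2 : S_f2 := f2 t_geo t_f1
theorem t_f4 : S_f4 := F4.f4
theorem t_f5 : S_f5 := H216.AN.F5.f5 t_f2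
theorem t_f6 : S_f6 := H79.AN.f6 toolA t_f5

theorem t_main :
    ∃ (G : Type) (_ : Group G), Infinite G ∧ (∀ g : G, IsOfFinOrder g) ∧
      ∃ S : Finset G, Subgroup.closure (S : Set G) = ⊤ ∧
        ∃ n : ℕ, ∃ C : ℝ, 0 < C ∧ ∀ r : ℝ, 0 < r →
          ∃ U : Fin (n + 1) → Set (Set G),
            (∀ x : G, ∃ i : Fin (n + 1), ∃ A ∈ U i, x ∈ A) ∧
            (∀ i : Fin (n + 1), ∀ A ∈ U i, ∀ x ∈ A, ∀ y ∈ A,
              (((SimpleGraph.fromRel (fun x y : G => x⁻¹ * y ∈ (S : Set G))).dist x y : ℕ) : ℝ)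
                ≤ C * r) ∧
            (∀ i : Fin (n + 1), ∀ A ∈ U i, ∀ B ∈ U i, A ≠ B → ∀ x ∈ A, ∀ y ∈ B,
              r < (((SimpleGraph.fromRel (fun x y : G => x⁻¹ * y ∈ (S : Set G))).dist x y : ℕ) : ℝ)) :=
  fin t_f3 t_f4 t_f6 t_f7

end Pool.Agent.H343.AN
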