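import Pool.Graph.R_seed8.TH68.T7

set_option autoImplicit false
set_option linter.unusedSectionVars false

/-! # MP_aa4716_al : an infinite torsion group of finite Assouad–Nagata dimension.  Definitions.

Everything is built on the library files `Pool.Graph.R_seed8.Helper97.Hyp.Basic` (`GHyp`, `IsProj`,
`pd`), `Pool.Graph.R_seed8.TH68.{Defs, Tool, Sys, T7}` (`WNorm`, `Pt`, `exc`, `Sys`, `Red`, `Cfg`,
`poly`, `quot_norm`). -/

namespace Pool.Agent.H343.AN

open Pool.Agent.TH68 Pool.Agent.Helper97.Hyp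

section col

variable {X : Type*} [PseudoMetricSpace X]

/-- one step of a monochromatic `s`-chain in `P` -/
def Stp {k : ℕ} (P : Set X) (c : X → Fin k) (s : ℝ) (x y : X) : Prop :=
  x ∈ P ∧ y ∈ P ∧ c x = c y ∧ dist x y ≤ s

/-- `P` has a colouring with `k` colours all of whose monochromatic `s`-chains are `D`-bounded -/
def Col (P : Set X) (k : ℕ) (s D : ℝ) : Prop :=
  ∃ c : X → Fin k, ∀ x y, Relation.ReflTransGen (Stp P c s) x y → dist x y ≤ D

end col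

section grp

variable {Γ : Type*} [Group Γ]

/-- the annulus around the identity -/
def Ann (W : WNorm Γ) (a w : ℝ) : Set (Pt W) :=
  {x | a ≤ dist (pt W 1) x ∧ dist (pt W 1) x ≤ a + w}

/-- all annuli of width `T ≥ σ` have 2-colourings with `C * T`-bounded `T`-chains -/
def ACol (W : WNorm Γ) (σ C : ℝ) : Prop :=
  ∀ T, σ ≤ T → ∀ a, Col (Ann W a T) 2 T (C * T)

/-- almost minimal distance modulo the subgroup `N` -/
def Redu {W : WNorm Γ} (N : Subgroup Γ) (η : ℝ) (p q : Pt W) : Prop :=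
  ∀ n ∈ N, dist p q ≤ dist p (n • q) + η

/-- a system of axes with rotations by `ρ` along all axes (coarsely: `S A / G A` is a circle of
length `ρ`) -/
structure Circ {W : WNorm Γ} {𝒜 : Type*} [MulAction Γ 𝒜] (Y : Sys Γ W 𝒜) where
  ρ : ℝ
  N : Subgroup Γ
  normal : N.Normal
  G : 𝒜 → Subgroup Γ
  G_le : ∀ A, G A ≤ N
  fix : ∀ A, ∀ r ∈ G A, r • A = A
  conj : ∀ (γ : Γ) (A : 𝒜), ∀ r ∈ G A, γ * r * γ⁻¹ ∈ G (γ • A)
  far : ∀ A, ∀ r ∈ G A, r ≠ 1 → ∀ q ∈ Y.S A, ρ ≤ dist q (r • q)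
  gap : ∀ A, ∀ r ∈ G A, ∀ q ∈ Y.S A, dist q (r • q) ≤ 7 / 4 * ρ → dist q (r • q) ≤ ρ + Y.θ
  cob : ∀ A, ∀ p ∈ Y.S A, ∀ q ∈ Y.S A, ∃ r ∈ G A, dist p (r • q) ≤ ρ / 2 + Y.θ
  wind : ∀ n ∈ N, n ≠ 1 → ∀ x : Pt W,
    ∃ A, ∃ r ∈ G A, r ≠ 1 ∧ pd (Y.S A) (r • x) (n • x) ≤ 50 * Y.θ
  /-- a coordinate along the axis -/
  crd : 𝒜 → Pt W → ℝ
  crd_spec : ∀ A (w w' : Pt W), |pd (Y.S A) w w' - (|crd A w - crd A w'|)| ≤ Y.θ

attribute [instance] Circ.normal

/-- `W'` is the quotient norm -/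
structure Quo (W : WNorm Γ) (N : Subgroup Γ) [N.Normal] (W' : WNorm (Γ ⧸ N)) : Prop where
  le : ∀ g : Γ, W'.ℓ (g : Γ ⧸ N) ≤ W.ℓ g
  ex : ∀ g : Γ, ∃ n ∈ N, W.ℓ (g * n) = W'.ℓ (g : Γ ⧸ N)

/-- the projection to the quotient -/
def prj (W : WNorm Γ) {N : Subgroup Γ} [N.Normal] (W' : WNorm (Γ ⧸ N)) (x : Pt W) : Pt W' :=
  pt W' ((x.out : Γ) : Γ ⧸ N)

section prj

variable {W : WNorm Γ} {N : Subgroup Γ} [N.Normal] {W' : WNorm (Γ ⧸ N)}

lemma prj_one : prj W W' (pt W 1) = pt W' 1 := rfl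

lemma prj_le (h : Quo W N W') (x y : Pt W) : dist (prj W W' x) (prj W W' y) ≤ dist x y := by
  have h := h.le (x.out⁻¹ * y.out)
  rw [dist_def, dist_def]
  exact_mod_cast h

lemma prj_smul {n : Γ} (hn : n ∈ N) (x : Pt W) : prj W W' (n • x) = prj W W' x := by
  change pt W' (((n * x.out : Γ) : Γ ⧸ N)) = pt W' ((x.out : Γ) : Γ ⧸ N)
  congr 1
  rw [eq_comm, QuotientGroup.eq]
  have := ‹N.Normal›.conj_mem n hn x.out⁻¹
  rwa [inv_inv, mul_assoc] at this

lemma prj_eq {x y : Pt W} (h : prj W W' x = prj W W' y) : ∃ n ∈ N, y = n • x := by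
  have h1 : ((x.out : Γ) : Γ ⧸ N) = ((y.out : Γ) : Γ ⧸ N) := h
  rw [QuotientGroup.eq] at h1
  have := ‹N.Normal›.conj_mem _ h1 x.out
  refine ⟨y.out * x.out⁻¹, by simpa [mul_assoc] using this, ?_⟩
  change y.out = y.out * x.out⁻¹ * x.out
  rw [inv_mul_cancel_right]

/-- lifting distances -/
lemma prj_lift (h : Quo W N W') (x : Pt W) (y : Pt W') :
    ∃ y' : Pt W, prj W W' y' = y ∧ dist x y' = dist (prj W W' x) y := by
  obtain ⟨g, hg⟩ := QuotientGroup.mk_surjective y.out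
  obtain ⟨n, hn, h⟩ := h.ex (x.out⁻¹ * g)
  refine ⟨pt W (g * n), ?_, ?_⟩
  · change ((g * n : Γ) : Γ ⧸ N) = y.out
    rw [← hg, eq_comm, QuotientGroup.eq]
    simpa using hn
  · rw [dist_def, dist_def, out_pt, ← mul_assoc, h]
    congr 2
    change _ = ((x.out : Γ) : Γ ⧸ N)⁻¹ * y.out
    rw [← hg]
    rfl

/-- minimal pairs are the pairs whose distance does not change in the quotient -/
lemma red_iff (h : Quo W N W') (x y : Pt W) :
    Red N x y ↔ dist (prj W W' x) (prj W W' y) = dist x y := by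
  constructor
  · intro hr
    apply le_antisymm (prj_le h x y)
    obtain ⟨y', hy', hd⟩ := prj_lift h x (prj W W' y)
    obtain ⟨n, hn, rfl⟩ := prj_eq hy'.symm
    rw [← hd]
    exact hr n hn
  · intro hr n hn
    rw [← hr, ← prj_smul (W' := W') hn y]
    exact prj_le h _ _

/-- every point of the quotient has a minimal lift -/
lemma exists_lift (h : Quo W N W') (y : Pt W') : ∃ u : Pt W, prj W W' u = y ∧
    dist (pt W 1) u = dist (pt W' 1) y ∧ Red N (pt W 1) u := by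
  obtain ⟨u, hu, hd⟩ := prj_lift h (pt W 1) y
  rw [prj_one] at hd
  refine ⟨u, hu, hd, ?_⟩
  rw [red_iff h, hu, prj_one, hd]

/-- the distance of the projections is attained by a translate -/
lemma exists_smul (h : Quo W N W') (x y : Pt W) :
    ∃ n ∈ N, dist x (n • y) = dist (prj W W' x) (prj W W' y) := by
  obtain ⟨y', hy', hd⟩ := prj_lift h x (prj W W' y)
  obtain ⟨n, hn, rfl⟩ := prj_eq hy'.symm
  exact ⟨n, hn, hd⟩

end prj

end grp

lemma Redu.of_red {Γ : Type*} [Group Γ] {W : WNorm Γ} {N : Subgroup Γ} {p q : Pt W}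
    (h : Red N p q) {η : ℝ} (hη : 0 ≤ η) : Redu N η p q := fun n hn => by
  have := h n hn; linarith

/-- subsegments of minimal segments -/
lemma Redu.sub {Γ : Type*} [Group Γ] {W : WNorm Γ} {N : Subgroup Γ} {p q e : Pt W}
    (h : Red N p q) {c : ℝ} (he : exc p q e ≤ c) : Redu N c p e := by
  intro n hn
  have h1 := h n hn
  have h2 := dist_triangle p (n • e) (n • q)
  rw [dist_smul] at h2
  unfold exc at he
  linarith

end Pool.Agent.H343.AN
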