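import Pool.Agent.H343.AN.Defs

set_option autoImplicit false
set_option linter.unusedSectionVars false

/-! # MP_aa4716_al, statements, parts A (colourings) and B (axes) -/

namespace Pool.Agent.H343.AN

open Pool.Agent.TH68 Pool.Agent.Helper97.Hyp

/-! ## Part A : colourings -/

/-- A1 (union theorem).  Proof: colour `x` by `cA x` if `x ∈ A` and by `cB x` otherwise.  In a
monochromatic `s`-chain of `A ∪ B` every maximal subchain in `B \ A` is a monochromatic `s`-chain of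
`B`, hence `DB`-bounded, so that consecutive points of the chain in `A` are at distance
`≤ DB + 2 s ≤ T`; so the points in `A` form a monochromatic `T`-chain of `A`. -/
def S_A1 : Prop := ∀ {X : Type} [PseudoMetricSpace X] {A B : Set X} {k : ℕ} {s T DA DB : ℝ},
  0 ≤ s → Col A k T DA → Col B k s DB → DB + 2 * s ≤ T → Col (A ∪ B) k s (DA + 2 * (DB + s))

/-- A2 (pieces).  Proof: for every `s`-chain component of `P` (relation: `ReflTransGen` of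
`x ∈ P ∧ y ∈ P ∧ dist x y ≤ s`) choose one set `U` as in the hypothesis containing it and use the
colouring of `U` on this component. -/
def S_A2 : Prop := ∀ {X : Type} [PseudoMetricSpace X] {P : Set X} {k : ℕ} {s D : ℝ},
  0 < k → 0 ≤ D → (∀ x ∈ P, ∃ U : Set X, x ∈ U ∧
    (∀ y ∈ U, ∀ z ∈ P, dist y z ≤ s → z ∈ U) ∧ Col U k s D) → Col P k s D

/-- A3 (contractions): use the colouring `c ∘ f`. -/
def S_A3 : Prop := ∀ {X Y : Type} [PseudoMetricSpace X] [PseudoMetricSpace Y] {P : Set X}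
  {P' : Set Y} {k : ℕ} {s s' D' R : ℝ} (f : X → Y), 0 ≤ R → 0 ≤ D' →
  (∀ x ∈ P, f x ∈ P') → (∀ x ∈ P, ∀ y ∈ P, dist x y ≤ s → dist (f x) (f y) ≤ s') →
  (∀ x ∈ P, ∀ y ∈ P, dist x y ≤ dist (f x) (f y) + R) → Col P' k s' D' → Col P k s (D' + R)

/-- A4 (monotonicity). -/
def S_A4 : Prop := ∀ {X : Type} [PseudoMetricSpace X] {P P' : Set X} {k : ℕ} {s s' D D' : ℝ},
  P ⊆ P' → s ≤ s' → D' ≤ D → Col P' k s' D' → Col P k s D

/-- A5 (from local to global).  The constants depend only on `k` and `C`.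
Proof.  Put `C₁ = C`, `C_{j+1} = (C_j + 2) * (C + 2)`, `C' = C_k`, `lam = (C + 2) ^ k`,
`L = 2 * C' * lam` (any larger value is fine).
(1) For every `R` and every `s ≥ τ` the ball `B = closedBall x₀ R` satisfies `Col B k s (C' * s)`:
downward induction on the scale (`s ≥ 2 R` is trivial, since `B` is `2R`-bounded; the step goes from
`lam * s` to `s`; formally: induction on `n` for the statement `2 R ≤ lam ^ n * s → …`).  Let `c₀` be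
a `k`-colouring of `B` at scale `lam * s` with bound `C' * lam * s`, let `B_i` be the set of the
points of colour `i`.  For `s ≤ t ≤ lam * s` every `lam * s`-chain component of `B_i` is contained in
a ball of radius `C' * lam * s ≤ L * t`, so `Col B_i k t (C * t)` by `S_A2`.  By `S_A1` (with `B` the
new class at scale `t` and `A` the union of the previous classes at scale `(C + 2) * t`)
`Col (B_1 ∪ … ∪ B_j) k t (C_j * t)` for `s ≤ t ≤ (C + 2) ^ (k - j) * s`.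
(2) Compactness: choose `x₀`, let `c_n` be the colouring of `closedBall x₀ n` and let `c x` be the
limit of `c_n x` along an ultrafilter `≤ atTop` on `ℕ` (`Fin k` is finite). A finite chain which is
monochromatic for `c` lies in `closedBall x₀ n` and is monochromatic for `c_n`, for some `n`. -/
def S_A5 : Prop := ∀ (k : ℕ) (C : ℝ), 0 < k → 1 ≤ C → ∃ L C' : ℝ, 1 ≤ L ∧ 1 ≤ C' ∧
  ∀ {X : Type} [PseudoMetricSpace X] (τ : ℝ), 0 < τ →
    (∀ s, τ ≤ s → ∀ x : X, Col (Metric.closedBall x (L * s)) k s (C * s)) →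
      ∀ s, τ ≤ s → Col (Set.univ : Set X) k s (C' * s)

/-- A6 (from annuli to the whole space).  Proof: with `j = ⌊dist o x / T⌋` colour `x` by the pair of
the parity of `j` and of `c_j x`, where `c_j` is the colouring of the annulus with `a = j * T`.  Along
a monochromatic `T`-chain `j` is constant. -/
def S_A6 : Prop := ∀ {X : Type} [PseudoMetricSpace X] (o : X) {T D : ℝ}, 0 < T → 0 ≤ D →
  (∀ a : ℝ, Col {x | a ≤ dist o x ∧ dist o x ≤ a + T} 2 T D) → Col (Set.univ : Set X) 4 T D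

/-- part A -/
structure ToolA : Prop where
  a1 : S_A1
  a2 : S_A2
  a3 : S_A3
  a4 : S_A4
  a5 : S_A5
  a6 : S_A6

/-! ## Part B : axes.  `θ = Y.θ ≥ δ = Y.δ ≥ 1` -/

section B

/-- B1. From `pd_le_of_proj`, `le_pd_of_proj` and `far_of_proj` of `Helper97/Hyp/Basic.lean`. -/
def S_near : Prop := ∀ {Γ : Type} [Group Γ] {W : WNorm Γ} {𝒜 : Type} [MulAction Γ 𝒜]
  (Y : Sys Γ W 𝒜) (A : 𝒜) {p q p' q' : Pt W}, IsProj Y.θ (Y.S A) p p' →
  IsProj Y.θ (Y.S A) q q' → 3 * Y.θ < pd (Y.S A) p q →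
  dist p p' + pd (Y.S A) p q + dist q q' ≤ dist p q + 5 * Y.θ ∧ exc p q p' ≤ 4 * Y.θ ∧
    exc p q q' ≤ 4 * Y.θ

/-- B2. Projections of almost minimal pairs.  Proof: by B1 the projections `p', q'` are near the
geodesic; by `cob` there is `r ∈ G A` with `dist q' (r • p') ≤ ρ / 2 + θ`, and
`dist p q ≤ dist p (r⁻¹ • q) + η = dist (r • p) q + η ≤ dist p p' + ρ / 2 + θ + dist q' q + η`. -/
def S_redpd : Prop := ∀ {Γ : Type} [Group Γ] {W : WNorm Γ} {𝒜 : Type} [MulAction Γ 𝒜]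
  (Y : Sys Γ W 𝒜) (R : Circ Y), 10 ^ 6 * Y.θ ≤ R.ρ → ∀ (A : 𝒜) {p q : Pt W} {η : ℝ}, 0 ≤ η →
  Redu R.N η p q → pd (Y.S A) p q ≤ R.ρ / 2 + 6 * Y.θ + η

/-- B3. From `wind`: `pd x (n • x) ≥ pd x (r • x) - 50 θ`, and `pd x (r • x) ≥ ρ - θ` by `far`,
applied to a projection of `x`, and `le_pd_of_proj` (see `IsProj.fix` in `TH68/T7.lean`). -/
def S_wind : Prop := ∀ {Γ : Type} [Group Γ] {W : WNorm Γ} {𝒜 : Type} [MulAction Γ 𝒜]
  (Y : Sys Γ W 𝒜) (R : Circ Y) {n : Γ}, n ∈ R.N → n ≠ 1 → ∀ x : Pt W,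
  ∃ A, ∃ r ∈ R.G A, r ≠ 1 ∧ pd (Y.S A) (r • x) (n • x) ≤ 50 * Y.θ ∧
    R.ρ - 51 * Y.θ ≤ pd (Y.S A) x (n • x)

/-- B4 (Behrstock inequality).  Proof: let `p', b₀` be projections of `p` on `S A` and `S B`.  If
both fail then, by `small`, `pd_A p b₀ > 6 θ` and `pd_B p p' > 6 θ`, and B1 gives
`dist p b₀ ≥ dist p p' + θ` and `dist p p' ≥ dist p b₀ + θ`. -/
def S_behr : Prop := ∀ {Γ : Type} [Group Γ] {W : WNorm Γ} {𝒜 : Type} [MulAction Γ 𝒜]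
  (Y : Sys Γ W 𝒜) {A B : 𝒜}, A ≠ B → ∀ (p : Pt W), ∀ a ∈ Y.S A, ∀ b ∈ Y.S B,
  pd (Y.S A) p b ≤ 7 * Y.θ ∨ pd (Y.S B) p a ≤ 7 * Y.θ

/-- B5 (order of two axes along a segment): either `A` comes before `B` from `p` to `q`, or
conversely.  From B4 at `p` and at `q` and from `small`. -/
def S_order : Prop := ∀ {Γ : Type} [Group Γ] {W : WNorm Γ} {𝒜 : Type} [MulAction Γ 𝒜]
  (Y : Sys Γ W 𝒜) {A B : 𝒜}, A ≠ B → ∀ (p q : Pt W), 20 * Y.θ ≤ pd (Y.S A) p q →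
  20 * Y.θ ≤ pd (Y.S B) p q →
  (∀ a ∈ Y.S A, ∀ b ∈ Y.S B, pd (Y.S B) p a ≤ 8 * Y.θ ∧ pd (Y.S A) q b ≤ 8 * Y.θ) ∨
  (∀ a ∈ Y.S A, ∀ b ∈ Y.S B, pd (Y.S A) p b ≤ 8 * Y.θ ∧ pd (Y.S B) q a ≤ 8 * Y.θ)

/-- B6 (consequence for the distances, from B1). -/
def S_odist : Prop := ∀ {Γ : Type} [Group Γ] {W : WNorm Γ} {𝒜 : Type} [MulAction Γ 𝒜]
  (Y : Sys Γ W 𝒜) {A : 𝒜} {p q a b : Pt W}, 20 * Y.θ ≤ pd (Y.S A) p q →
  pd (Y.S A) q b ≤ 8 * Y.θ → IsProj Y.θ (Y.S A) p a →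
  dist p a + pd (Y.S A) p q ≤ dist p b + 20 * Y.θ

/-- B7 (monotonicity along geodesics).  Proof: suppose `3 θ < pd_A q₁ q₂` and let `q₁', q₂'` be
projections.  By `exc_split` (`TH68/Tool.lean`) applied to `exc o v q₁ ≤ c` and the point `q₂`,
either `exc o q₂ q₁ ≤ c + 2δ` or `exc q₂ v q₁ ≤ c + 2δ`.  In the first case
`dist o v ≥ dist o q₁ + dist q₁ q₁' + pd_A q₁ q₂ + dist q₂' q₂ + dist q₂ v - 7θ - 2c`, and
`pd_A o v ≥ ((dist o q₂' - dist o q₁') - (dist v q₂' - dist v q₁')) / 2` by `le_pd`, where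
`dist o q₂' ≥ dist o v - dist v q₂'`, `dist v q₁' ≥ dist o v - dist o q₁'`.  The second case is
symmetric. -/
def S_mono : Prop := ∀ {Γ : Type} [Group Γ] {W : WNorm Γ} {𝒜 : Type} [MulAction Γ 𝒜]
  (Y : Sys Γ W 𝒜) (A : 𝒜) {o v q₁ q₂ : Pt W} {c : ℝ}, 0 ≤ c → exc o v q₁ ≤ c →
  exc o v q₂ ≤ c → pd (Y.S A) q₁ q₂ ≤ pd (Y.S A) o v + 10 * Y.θ + 2 * c

/-- B8 (uniqueness of the entry point of a circle).  Proof: choose `g ∈ G A` with
`dist e (g • e') ≤ ρ / 2 + θ` (`cob`), `n = g * m`.  If `n = 1` then `e` and `g • e'` are projections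
of the same point, at distance `≤ θ`.  Otherwise let `C` be the axis of B3 for `n` and `x = o`.
`C ≠ A` since `pd_A o (n • o) ≤ dist e (g • e') + θ`.  `pd_C e (g • e') ≤ θ` by `small`, and
`pd_C o e`, `pd_C (n • o) (g • e') = pd_{g⁻¹ C} (m • o) e' ≤ ρ / 2 + 6 θ + η` by B2 (use `pd_smul`),
so both are `≥ ρ / 2 - 60 θ - η`.  If `20 θ ≤ pd_A o (n • o)` then B5 for `A`, `C` gives
`pd_C o e ≤ 8 θ` or `pd_C (n • o) (g • e') ≤ 8 θ`, a contradiction.  So `dist e (g • e') ≤ 21 θ`. -/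
def S_entry : Prop := ∀ {Γ : Type} [Group Γ] {W : WNorm Γ} {𝒜 : Type} [MulAction Γ 𝒜]
  (Y : Sys Γ W 𝒜) (R : Circ Y), 10 ^ 6 * Y.θ ≤ R.ρ → ∀ (A : 𝒜) {o e e' : Pt W} {m : Γ} {η : ℝ},
  m ∈ R.N → 0 ≤ η → η ≤ R.ρ / 100 → IsProj Y.θ (Y.S A) o e → IsProj Y.θ (Y.S A) (m • o) e' →
  Redu R.N η o e → Redu R.N η (m • o) e' →
  (∃ g ∈ R.G A, dist e (g • e') ≤ 30 * Y.θ) ∧
    dist o e ≤ dist (m • o) e' + 30 * Y.θ + η ∧ dist (m • o) e' ≤ dist o e + 30 * Y.θ + η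

/-- B9 (arcs of a circle far from a given orbit are short).  Proof in the summary: put
`P = crd p`, `P' = crd p'`; for points `a, b` of `S A` one has `|dist a b - |crd a - crd b|| ≤ 2θ`.
By `cob` there are `g, g' ∈ G A` with `dist p (g • e) ≤ ρ / 2 + θ`, `dist p' (g' • e) ≤ ρ / 2 + θ`;
put `E = crd (g • e)`, `E' = crd (g' • e)`.  If `g • e = g' • e` then `p, p'` are on the same side of
it and `|P - P'| ≤ κ + 5θ`.  Otherwise `ρ ≤ dist (g • e) (g' • e) ≤ 3 ρ / 2 + 2θ`, hence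
`≤ ρ + θ` by `gap`; if, say, `E < E'` then `P` is near `E + ρ / 2` and `P'` is near `E' - ρ / 2`. -/
def S_arc : Prop := ∀ {Γ : Type} [Group Γ] {W : WNorm Γ} {𝒜 : Type} [MulAction Γ 𝒜]
  (Y : Sys Γ W 𝒜) (R : Circ Y), 10 ^ 6 * Y.θ ≤ R.ρ → ∀ (A : 𝒜) {e p p' : Pt W} {κ : ℝ},
  e ∈ Y.S A → p ∈ Y.S A → p' ∈ Y.S A → 0 ≤ κ → κ ≤ R.ρ / 100 →
  (∀ g ∈ R.G A, R.ρ / 2 - κ ≤ dist (g • e) p) → (∀ g ∈ R.G A, R.ρ / 2 - κ ≤ dist (g • e) p') →
  dist p p' ≤ R.ρ / 2 → dist p p' ≤ 2 * κ + 50 * Y.θ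

/-- B10 (uniqueness of the exit point of a circle).  Proof: let `e`, `e'` be projections of `o`,
`m • o` on `S A`.  By B1 and `Redu.sub`, `Redu N (4θ) o e`, `Redu N (4θ) (m • o) e'`, so B8 gives
`g ∈ G A` with `dist e (g • e') ≤ 30 θ`.  In the coordinate `crd A` the numbers
`|crd u - crd o|` and `|crd (g • u') - crd (g m • o)|` are in `[ρ/2 - K - 2θ, ρ/2 + 8θ]` (B2) and
`|crd o - crd (g m • o)| ≤ 33 θ`.  If `u` and `g • u'` are on the same side then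
`|crd u - crd (g • u')| ≤ K + 50 θ`.  Otherwise take `h ∈ G A` with
`dist x (h • g • x') ≤ ρ / 2 + θ` (`cob`); `h ≠ 1`, `dist (g • x') (h • g • x') ≤ 7/4 ρ`, so it is in
`[ρ, ρ + θ]` and `h` moves `g • x'` towards `x`. -/
def S_exit : Prop := ∀ {Γ : Type} [Group Γ] {W : WNorm Γ} {𝒜 : Type} [MulAction Γ 𝒜]
  (Y : Sys Γ W 𝒜) (R : Circ Y), 10 ^ 6 * Y.θ ≤ R.ρ → ∀ (A : 𝒜) {o u u' x x' : Pt W} {m : Γ}
  {K : ℝ}, m ∈ R.N → 0 ≤ K → K ≤ R.ρ / 100 → Red R.N o u → Red R.N (m • o) u' →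
  R.ρ / 2 - K ≤ pd (Y.S A) o u → R.ρ / 2 - K ≤ pd (Y.S A) (m • o) u' →
  IsProj Y.θ (Y.S A) u x → IsProj Y.θ (Y.S A) u' x' →
  ∃ h ∈ R.G A, dist x (h • x') ≤ 2 * K + 1000 * Y.θ

/-- B11 (AX: the axis near the end of a minimal segment is unique).  Proof.  Suppose `A ≠ B`.
*Case `m = m'`.*  `pd_B (m•o) u ≥ h - T`; apply B5, B6 to `(u, m•o)`: either
`dist u s' ≥ pd_A u (m•o) - 20θ ≥ h - 20 θ`, but `dist u s' ≤ T + t`; or
`dist u s ≥ pd_B u (m•o) - 20 θ ≥ h - T - 20θ`, but `dist u s ≤ t`.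
*Case `m ≠ m'`.*  Let `C` be the axis of B3 for `n = m' m⁻¹` and the point `m • o`.  Since
`pd_C (m•o) (m'•o) ≥ ρ - 51 θ`, `pd_C (m•o) u ≤ ρ/2 + 6θ`, `pd_C (m'•o) v ≤ ρ/2 + 6θ` (B2) and
`pd_C u v ≤ T`, both `pd_C (m•o) u` and `pd_C (m'•o) v` are `≥ ρ/2 - 57 θ - T`.
If `A ≠ C` then B5 for `(u, m•o)`: the case of `C` first is impossible by B6 (`dist u s ≤ t`), so
`pd_A (m•o) c ≤ 8 θ` and `dist u c ≥ h - 20 θ` for all `c ∈ S C`.  Similarly if `B ≠ C` then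
`pd_B (m'•o) c ≤ 8θ` and `dist v c ≥ h - 20 θ` for all `c ∈ S C`.
If `A = C`, `B ≠ C` then `dist v s ≥ h - 20 θ` but `dist v s ≤ T + t`; similarly if `B = C`.
If `A ≠ C`, `B ≠ C` take `c ∈ S C`: `pd_A u c ≥ h - 8θ`, `pd_B u c ≥ pd_B v c - T ≥ h - 8θ - T`;
B5, B6 for `(u, c)` give a contradiction as in the first case. -/
def S_ax : Prop := ∀ {Γ : Type} [Group Γ] {W : WNorm Γ} {𝒜 : Type} [MulAction Γ 𝒜]
  (Y : Sys Γ W 𝒜) (R : Circ Y), 10 ^ 6 * Y.θ ≤ R.ρ → ∀ {A B : 𝒜} {o u v s s' : Pt W} {m m' : Γ}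
  {t T h : ℝ}, m ∈ R.N → m' ∈ R.N → 0 ≤ t → 0 ≤ T → T + t ≤ R.ρ / 100 → T + t + 100 * Y.θ ≤ h →
  Red R.N (m • o) u → Red R.N (m' • o) v → dist u v ≤ T → h ≤ pd (Y.S A) (m • o) u →
  h ≤ pd (Y.S B) (m' • o) v → s ∈ Y.S A → dist u s ≤ t → s' ∈ Y.S B → dist v s' ≤ t → A = B

/-- the distance of the circle of `A` from the base point, in the quotient -/
noncomputable def ent {Γ : Type} [Group Γ] {W : WNorm Γ} {𝒜 : Type} [MulAction Γ 𝒜]
    {Y : Sys Γ W 𝒜} (R : Circ Y) (A : 𝒜) : ℝ :=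
  sInf {t | ∃ n ∈ R.N, ∃ s ∈ Y.S A, dist (n • pt W 1) s = t}

/-- B12: the infimum in `ent` is attained (distances are natural numbers, see `nd`), and `ent` is
invariant under `N`. -/
def S_entatt : Prop := ∀ {Γ : Type} [Group Γ] {W : WNorm Γ} {𝒜 : Type} [MulAction Γ 𝒜]
  (Y : Sys Γ W 𝒜) (R : Circ Y) (A : 𝒜),
  (∃ n ∈ R.N, ∃ s ∈ Y.S A, dist (n • pt W 1) s = ent R A) ∧
  (∀ n ∈ R.N, ∀ s ∈ Y.S A, ent R A ≤ dist (n • pt W 1) s) ∧ (∀ n ∈ R.N, ent R (n • A) = ent R A)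

/-- B13: the entry level of a circle does not depend on the lift.  Proof: let `n, s` attain `ent`
and let `π` be a projection of `n • o` on `S A`; `dist (n•o) π ≤ ent + θ`, so `Redu N θ (n•o) π`;
apply B8 (with `m = n`). -/
def S_entlev : Prop := ∀ {Γ : Type} [Group Γ] {W : WNorm Γ} {𝒜 : Type} [MulAction Γ 𝒜]
  (Y : Sys Γ W 𝒜) (R : Circ Y), 10 ^ 6 * Y.θ ≤ R.ρ → ∀ (A : 𝒜) {e : Pt W} {m : Γ} {η : ℝ},
  m ∈ R.N → Y.θ ≤ η → η ≤ R.ρ / 100 → IsProj Y.θ (Y.S A) (m • pt W 1) e →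
  Redu R.N η (m • pt W 1) e → |dist (m • pt W 1) e - ent R A| ≤ 40 * Y.θ + η

/-- part B -/
structure ToolB : Prop where
  near : S_near
  redpd : S_redpd
  wind : S_wind
  behr : S_behr
  order : S_order
  odist : S_odist
  mono : S_mono
  entry : S_entry
  arc : S_arc
  exit : S_exit
  ax : S_ax
  entatt : S_entatt
  entlev : S_entlev

end B

end Pool.Agent.H343.AN
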