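import Pool.Agent.H343.AN.StAB

set_option autoImplicit false
set_option linter.unusedSectionVars false

/-! # MP_aa4716_al, statements, part C : annuli of the quotient at scales much smaller than `ρ` -/

namespace Pool.Agent.H343.AN

open Pool.Agent.TH68 Pool.Agent.Helper97.Hyp

/-- the points of the quotient near an antipode: there is a minimal lift `u` and an axis `A` at
distance `≤ t` from `u` followed by `[1, u]` for a time `≥ ρ / 2 - η` -/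
def Zset {Γ : Type} [Group Γ] {W : WNorm Γ} {𝒜 : Type} [MulAction Γ 𝒜] {Y : Sys Γ W 𝒜}
    (R : Circ Y) (W' : WNorm (Γ ⧸ R.N)) (t η : ℝ) : Set (Pt W') :=
  {x | ∃ u : Pt W, prj W W' u = x ∧ Red R.N (pt W 1) u ∧
    ∃ A, R.ρ / 2 - η ≤ pd (Y.S A) (pt W 1) u ∧ ∃ s ∈ Y.S A, dist u s ≤ t}

/-- C1 (contraction away from the antipodes, upstairs).  `o` is the base point, `z ∈ [o, u]`,
`w ∈ [o, v]` at the same distance from `o`.
Proof.  Write `δ ≤ θ`.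
*Case `m = 1`.*  By `exc_split` for `exc o v w = 0` and the point `u`, `exc o u w ≤ 2δ` (the other
case gives `dist w v ≤ dist u v + 2δ`, excluded) and `order_close` gives `dist z w ≤ 4 δ`.
*Case `m ≠ 1`.*  Let `B` be the axis of B3 (at `o`, for `m`): `pd_B o (m•o) ≥ ρ - 51θ`,
`pd_B o u ≤ ρ/2 + 6θ`, `pd_B (m•o) (m•v) ≤ ρ/2 + 6θ`, `pd_B u (m•v) ≤ r`, so `pd_B o u` and
`pd_B (m•o) (m•v)` are `≥ ρ/2 - 57 θ - r`, and by hypothesis `t < dist u s` for `s ∈ S B`.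
Let `a, b` be projections of `u`, `m•v` on `S B`.  `pd_B u (m•v) ≤ 3θ`, otherwise
`dist u a ≤ r + 5θ < t` by B1; so `dist a b ≤ 4θ`.  By B1 `exc o u a ≤ 4θ`,
`exc (m•o) (m•v) b ≤ 4θ`.  By `exc_split` (for `exc o u z = 0` and the point `a`)
`exc a u z ≤ 2θ` [the other case gives `dist o z ≤ dist o a + 2θ ≤ dist o u - t + 6θ`, but
`dist o z = dist o u - dist z u ≥ dist o u - t + 10θ`].  In the same way
`exc b (m•v) (m•w) ≤ 2θ` (here `dist (m•v) b ≥ dist u b - r > t - r`), so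
`exc a (m•v) (m•w) ≤ 10θ` (`exc_move_left`) and by `exc_split` with the point `u`
`exc a u (m•w) ≤ 12θ` [the other case gives `dist (m•v) (m•w) ≤ r + 12θ`].  Now
`dist a z ∈ [dist o z - dist o a, dist o z - dist o a + 6θ]`,
`dist b (m•w) ∈ [dist o w - dist (m•o) b, dist o w - dist (m•o) b + 6θ]`, and
`|dist o a - dist (m•o) b| ≤ 8θ`: indeed `dist o u ≤ dist (m•o) u` (minimality)
`≤ dist (m•o) b + 4θ + dist a u` and `dist o u ≥ dist o a + dist a u - 4θ`; symmetrically for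
`m•v`.  `order_close` gives `dist z (m•w) ≤ 40θ`. -/
def S_c1 : Prop := ∀ {Γ : Type} [Group Γ] {W : WNorm Γ} {𝒜 : Type} [MulAction Γ 𝒜]
  (Y : Sys Γ W 𝒜) (R : Circ Y), 10 ^ 6 * Y.θ ≤ R.ρ → ∀ {o u v z w : Pt W} {m : Γ} {r t : ℝ},
  0 ≤ r → r ≤ R.ρ / 100 → m ∈ R.N → Red R.N o u → Red R.N o v → dist u (m • v) ≤ r →
  exc o u z = 0 → exc o v w = 0 → dist o z = dist o w →
  r + 20 * Y.θ ≤ dist z u → r + 20 * Y.θ ≤ dist w v →
  dist z u + 10 * Y.θ ≤ t → dist w v + r + 10 * Y.θ ≤ t →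
  (∀ A, R.ρ / 2 - (r + 60 * Y.θ) ≤ pd (Y.S A) o u → ∀ s ∈ Y.S A, t < dist u s) →
  ∃ m' ∈ R.N, dist z (m' • w) ≤ 40 * Y.θ

/-- C2 (the same in the quotient).  Proof: lift `z` to a minimal lift `z'` (`exists_lift`), then lift
`x` starting at `z'` (`prj_lift`): `dist z' u = dist z x`; since `dist 1 z + dist z x = dist 1 x`,
`u` is a minimal lift of `x` with `exc 1 u z' = 0`; the same for `w`, `y`; then use `exists_smul` for
`u, v` and C1. -/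
def S_c2 : Prop := ∀ {Γ : Type} [Group Γ] {W : WNorm Γ} {𝒜 : Type} [MulAction Γ 𝒜]
  (Y : Sys Γ W 𝒜) (R : Circ Y) (W' : WNorm (Γ ⧸ R.N)), Quo W R.N W' → 10 ^ 6 * Y.θ ≤ R.ρ →
  ∀ {x y z w : Pt W'} {r t : ℝ}, 0 ≤ r → r ≤ R.ρ / 100 → dist x y ≤ r →
  exc (pt W' 1) x z = 0 → exc (pt W' 1) y w = 0 → dist (pt W' 1) z = dist (pt W' 1) w →
  r + 20 * Y.θ ≤ dist z x → r + 20 * Y.θ ≤ dist w y →
  dist z x + 10 * Y.θ ≤ t → dist w y + r + 10 * Y.θ ≤ t →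
  x ∉ Zset R W' t (r + 60 * Y.θ) → dist z w ≤ 40 * Y.θ

/-- C3 (chains near the antipodes are bounded).  Let `x_0, x_1, …` be a `T`-chain in
`Ann W' a r ∩ Zset R W' t η`.
Proof.  *Lifting.*  By induction on the chain there are an axis `A` (the same for all points), lifts
`u_i` of `x_i` with `dist u_i u_{i+1} ≤ T` and `m_i ∈ N` with `Red N (m_i•1) u_i`,
`ρ/2 - η ≤ pd_A (m_i•1) u_i`, `∃ s ∈ S A, dist u_i s ≤ t` (given `u_i`, take the lift `u'` and the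
axis `A'` of the definition of `Zset` for `x_{i+1}`, and `n ∈ N` with `dist u_i (n•u') ≤ T`
(`exists_smul`); put `u_{i+1} = n•u'`, `m_{i+1} = n`; the axis is `n•A' = A` by B11 with
`h = ρ/2 - η`).
*Bound.*  Let `e` be a projection of `m_0•1` and `a_i` a projection of `u_i` on `S A`, so
`dist u_i a_i ≤ t + θ`.  For `g ∈ G A`, by minimality,
`a ≤ dist (m_i•1) u_i ≤ dist (g m_0•1) u_i ≤ dist (m_0•1) e + dist (g•e) a_i + t + θ` and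
`dist (m_0•1) e ≤ dist (m_0•1) u_0 - pd_A (m_0•1) u_0 + 5θ ≤ a + r - ρ/2 + η + 5θ` (B1), hence
`dist (g•e) a_i ≥ ρ/2 - κ` with `κ = r + η + t + 6θ`.  By B9 `dist a_0 a_i ≤ ρ/2` implies
`dist a_0 a_i ≤ 2κ + 50θ`; since `dist a_i a_{i+1} ≤ T + θ` (`le_pd_of_proj`, `pd_le_dist`) it
follows by induction that `dist a_0 a_i ≤ 2κ + 50θ` for all `i`. -/
def S_c3 : Prop := ∀ {Γ : Type} [Group Γ] {W : WNorm Γ} {𝒜 : Type} [MulAction Γ 𝒜]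
  (Y : Sys Γ W 𝒜) (R : Circ Y) (W' : WNorm (Γ ⧸ R.N)), Quo W R.N W' → 10 ^ 6 * Y.θ ≤ R.ρ →
  ∀ {a r t η T : ℝ}, 0 ≤ r → 0 ≤ t → 0 ≤ η → 0 ≤ T → r + t + η + T ≤ R.ρ / 1000 →
  ∀ x y : Pt W', Relation.ReflTransGen (fun x y => x ∈ Ann W' a r ∩ Zset R W' t η ∧
    y ∈ Ann W' a r ∩ Zset R W' t η ∧ dist x y ≤ T) x y →
    dist x y ≤ 4 * t + 2 * r + 2 * η + 100 * Y.θ

/-- C4 (a small piece of a sphere of the quotient is covered by two thin annuli upstairs).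
`f x` is the lift of `x` closest to a minimal lift `u₀` of a given point `p ∈ U`.
Proof.  `f` is isometric on `U`: otherwise `dist (f x) (n•f y) = dist x y ≤ D₀` for some
`n ∈ N \ {1}`, and `dist (f y) (n•f y) ≤ 3 D₀ < ρ - 51θ`, against B3 and `pd_le_dist`.
For `x ∈ U` choose `m_x ∈ N` with `dist (m_x•1) (f x) = b` (so `Red N (m_x•1) (f x)`).  If
`dist 1 (f x) ≤ b + 20θ` for all `x ∈ U` we are done with `m = 1`; otherwise fix `y ∈ U` with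
`dist 1 (f y) > b + 20θ` and put `m = m_y`.  Let `x ∈ U` with `dist 1 (f x) > b + 20θ`; we show
`dist (m_y•1) (f x) ≤ b + 50θ`.
(i) `m_x ≠ 1`; let `B_x` be the axis of B3 for `m_x` at `1`; by B2 (for `(1,u₀)` and
`(m_x•1, f x)`) and `pd u₀ (f x) ≤ D₀`, `pd_{B_x} 1 u₀` and `pd_{B_x} (m_x•1) (f x)` are
`≥ ρ/2 - 57θ - D₀`.
(ii) `dist u₀ a ≤ D₀ + 5θ` for the projection `a` of `u₀` on `S B_x`: otherwise `pd_{B_x} u₀ (f x) ≤ 3θ`
(B1); with `a'` a projection of `f x`, `dist a a' ≤ 4θ`, `dist 1 a ≤ dist (m_x•1) a' + 8θ`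
[`dist 1 a + dist a u₀ - 4θ ≤ dist 1 u₀ ≤ dist (m_x•1) u₀ ≤ dist (m_x•1) a' + 4θ + dist a u₀`] and
`dist 1 (f x) ≤ dist 1 a + 4θ + dist a' (f x) ≤ dist (m_x•1) (f x) + 16θ`, a contradiction.
(iii) the same for `y`; by B5, B6 for `(u₀, 1)`, `B_x = B_y = B`.
(iv) in the coordinate `crd B`, with (say) `crd 1 < crd u₀`, both `crd (m_x•1)` and `crd (m_y•1)` are
`≥ crd u₀ + ρ/2 - D₀ - 60θ` (they are at distance `≥ ρ - 52θ` from `crd 1` and `≤ ρ/2 + D₀ + 8θ` from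
`crd u₀`).  Let `e_x, e_y` be projections of `m_x•1`, `m_y•1`.  If `crd (m_x•1) ≤ crd (m_y•1)` then for
`w = f x, f y`: `dist w (m_y•1) ≥ dist w e_x + dist e_x (m_y•1) - 12θ`,
`dist w (m_x•1) ≥ dist w e_x + dist e_x (m_x•1) - 6θ`; minimality at `f y` gives
`dist e_x (m_y•1) ≤ dist e_x (m_x•1) + 12θ`, hence
`dist (m_y•1) (f x) ≤ dist (f x) e_x + dist e_x (m_x•1) + 12θ ≤ b + 18θ`.  The other case is similar
with `e_y`. -/
def S_c4 : Prop := ∀ {Γ : Type} [Group Γ] {W : WNorm Γ} {𝒜 : Type} [MulAction Γ 𝒜]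
  (Y : Sys Γ W 𝒜) (R : Circ Y) (W' : WNorm (Γ ⧸ R.N)), Quo W R.N W' → 10 ^ 6 * Y.θ ≤ R.ρ →
  ∀ {U : Set (Pt W')} {b D₀ : ℝ}, (∀ x ∈ U, dist (pt W' 1) x = b) →
  (∀ x ∈ U, ∀ y ∈ U, dist x y ≤ D₀) → D₀ ≤ R.ρ / 1000 →
  ∃ f : Pt W' → Pt W, (∀ x ∈ U, ∀ y ∈ U, dist (f x) (f y) = dist x y) ∧ ∃ m ∈ R.N,
    (∀ x ∈ U, b ≤ dist (pt W 1) (f x) ∧ b ≤ dist (m • pt W 1) (f x)) ∧
    ∀ x ∈ U, dist (pt W 1) (f x) ≤ b + 50 * Y.θ ∨ dist (m • pt W 1) (f x) ≤ b + 50 * Y.θ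

/-- C5 (colouring a small piece of a sphere).  Proof: by C4 `U = U₁ ∪ U₂`, where `f` maps `U₁` to
`Ann W b T'` and `m⁻¹ • f` maps `U₂` to `Ann W b T'`; `Col` of the annulus at scales `T'` and `9 T'`,
A3 (with `R = 0`), A4, and A1 with `A = U₁` at scale `9 T'`, `B = U₂` at scale `T'`:
`63 T' + 2 (7 T' + T') = 79 T'`. -/
def S_c5 : Prop := ∀ {Γ : Type} [Group Γ] {W : WNorm Γ} {𝒜 : Type} [MulAction Γ 𝒜]
  (Y : Sys Γ W 𝒜) (R : Circ Y) (W' : WNorm (Γ ⧸ R.N)), Quo W R.N W' → 10 ^ 6 * Y.θ ≤ R.ρ →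
  ∀ {σ : ℝ}, ACol W σ 7 → ∀ {U : Set (Pt W')} {b D₀ T' : ℝ}, (∀ x ∈ U, dist (pt W' 1) x = b) →
  (∀ x ∈ U, ∀ y ∈ U, dist x y ≤ D₀) → D₀ ≤ R.ρ / 1000 → σ ≤ T' → 50 * Y.θ ≤ T' →
  Col U 2 T' (79 * T')

/-- C6 (descent: from a colouring of a sphere of the quotient at scale `r` to the smaller scale `s`).
Proof: let `c₀` be the colouring of the sphere `E` at scale `r`, `E_i` the points of colour `i`.  The
`r`-chain components of `E_i` are `40 r`-bounded, so `Col E_i 2 T' (79 T')` for `s ≤ T' ≤ r` by A2 and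
C5 (`D₀ = 40 r`).  A1 with `A = E_0` at scale `81 s` and `B = E_1` at scale `s`:
`79 * 81 s + 2 (79 s + s) = 6559 s`. -/
def S_c6 : Prop := ∀ {Γ : Type} [Group Γ] {W : WNorm Γ} {𝒜 : Type} [MulAction Γ 𝒜]
  (Y : Sys Γ W 𝒜) (R : Circ Y) (W' : WNorm (Γ ⧸ R.N)), Quo W R.N W' → 10 ^ 6 * Y.θ ≤ R.ρ →
  ∀ {σ : ℝ}, ACol W σ 7 → ∀ {b r s : ℝ}, σ ≤ s → 50 * Y.θ ≤ s → 81 * s ≤ r → r ≤ R.ρ / 10 ^ 5 →
  Col {x : Pt W' | dist (pt W' 1) x = b} 2 r (40 * r) →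
  Col {x : Pt W' | dist (pt W' 1) x = b} 2 s (6559 * s)

/-- C7 (all annuli of the quotient at small scales).
Proof.  Induction on `n` for all `a ≤ n * r`.  If `a ≤ 10 r` the annulus is `22 r`-bounded.  Let
`a > 10 r`, `P = Ann W' a r`, `b = ⌊a - r - 20θ⌋₊` (a natural number, `a - r - 20θ - 1 < b ≤ a - r`).
The annulus `Ann W' b r` satisfies the claim by induction, hence so does the sphere of radius `b`, and
C6 gives a colouring of this sphere at scale `s` with bound `6559 s ≤ r`.  For `x ∈ P` choose `z x` on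
a geodesic from `1` to `x` with `dist 1 (z x) = b` (`exists_between`); `dist (z x) x ≤ 2r + 21θ`.  With
`t = 3 r + 40 θ`, `η = r + 60 θ` and `V = P \ Zset R W' t η`, C2 gives `dist (z x) (z y) ≤ 40θ ≤ s`
for `x, y ∈ V` with `dist x y ≤ r`, so by A3 `Col V 2 r (r + 2 (2r + 21θ))`, bound `≤ 6 r`.  By C3
`Col (P ∩ Zset R W' t η) 2 (8 r) (17 r)` (constant colouring).  A1 gives
`17 r + 2 (6 r + r) = 31 r`. -/
def S_c7 : Prop := ∀ {Γ : Type} [Group Γ] {W : WNorm Γ} {𝒜 : Type} [MulAction Γ 𝒜]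
  (Y : Sys Γ W 𝒜) (R : Circ Y) (W' : WNorm (Γ ⧸ R.N)), Quo W R.N W' → 10 ^ 6 * Y.θ ≤ R.ρ →
  ∀ {σ : ℝ}, ACol W σ 7 → ∀ {r s : ℝ}, σ ≤ s → 50 * Y.θ ≤ s → 10 ^ 4 * s ≤ r →
  r ≤ R.ρ / 10 ^ 5 → ∀ a, Col (Ann W' a r) 2 r (40 * r)

end Pool.Agent.H343.AN
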