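import Pool.Agent.H343.AN.StC

set_option autoImplicit false
set_option linter.unusedSectionVars false

/-! # MP_aa4716_al, statements, part D : pairs of minimal segments whose ends are near in the
quotient -/

namespace Pool.Agent.H343.AN

open Pool.Agent.TH68 Pool.Agent.Helper97.Hyp

/-- D0 (shortening a closed polygon): `poly` of `TH68/T7.lean` for a `Circ` instead of a `Spn`, with
the additional information that `q₁`, `q₂` are projections and that `pd (v 0) (v k) ≥ ρ - 51θ`.  The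
proof is the same (replace `R.M` by `R.ρ`). -/
def S_poly : Prop := ∀ {Γ : Type} [Group Γ] {W : WNorm Γ} {𝒜 : Type} [MulAction Γ 𝒜]
  (Y : Sys Γ W 𝒜) (R : Circ Y), 10 ^ 6 * Y.θ ≤ R.ρ → ∀ {n : Γ}, n ∈ R.N → n ≠ 1 →
  ∀ (v : ℕ → Pt W) (k : ℕ), 0 < k → k ≤ 6 → v k = n • v 0 →
    ∃ A, ∃ r ∈ R.G A, ∃ q₁, ∃ q₂, IsProj Y.θ (Y.S A) (v 0) q₁ ∧ IsProj Y.θ (Y.S A) (v k) q₂ ∧
      r ≠ 1 ∧ dist (r • q₁) q₂ ≤ 51 * Y.θ ∧ R.ρ - 51 * Y.θ ≤ dist q₁ q₂ ∧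
      R.ρ - 52 * Y.θ ≤ pd (Y.S A) (v 0) (v k) ∧
      ∃ a b, a ≤ b ∧ b < k ∧ exc (v a) (v (a + 1)) q₁ ≤ 16 * Y.θ ∧
        exc (v b) (v (b + 1)) q₂ ≤ 16 * Y.θ

/-- D1 (bigons).  Two minimal segments `[o, u]`, `[o, v]` with `dist u (m • v) ≤ 500 θ`; every point
`p` of the first one is near a translate of the second one, or it is near an axis followed by both
(in the quotient: a circle whose two halves are contained in the two segments).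

Proof by strong induction on `nd o u + nd o v` (`T7.lean`, `caseA`, is a model).
*`m = 1`.*  `exc_split` for `exc o u p = 0` and the point `v`: either `exc o v p ≤ 2δ` and
`near_geod` gives `q ∈ [o, v]` with `dist p q ≤ 4δ`; or `exc v u p ≤ 2δ`, `dist u p ≤ 502 θ`, and
`q = v` works (`dist p v ≤ 1002 θ`).
*`m ≠ 1`.*  Let `B`, `r ∈ G B` be as in B3 for `m` at `o`, `q₁, q₂` projections of `o`, `m•o` on `S B`
(`dist (r•q₁) q₂ ≤ 51θ`).  `pd_B o u` and `pd_B (m•o) (m•v)` are `≥ ρ/2 - 557θ` (B2).  By B1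
`exc o u q₁ ≤ 4θ`, `exc (m•o) (m•v) q₂ ≤ 4θ`.  By `exc_split` for `exc o u q₁ ≤ 4θ` and the point `p`
and by `near_geod` there is `y` with `dist q₁ y ≤ 8θ`, `exc o u y = 0` and (i) `exc o y p = 0` or
(ii) `exc y u p = 0` (`exc_zero_trans`, `exc_zero_trans'`); there is `z` with `exc o v z = 0`,
`dist q₂ (m•z) ≤ 6θ`.  Then `dist y (r⁻¹ m • z) ≤ 65θ`.
(i) Apply the induction hypothesis to `y`, `z`, `r⁻¹ m`, `p` (`dist o y < dist o u` since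
`dist o u ≥ dist o q₁ + pd_B o u - 5θ`); the points found on `[o, y]`, `[o, z]` are on `[o, u]`,
`[o, v]` (`exc_zero_trans'`).
(ii) Let `u', v'` be projections of `u`, `m•v` on `S B`; `dist u' v' ≤ 501θ` (`le_pd_of_proj`,
`pd_le_dist`), `exc o u u' ≤ 4θ`, `exc (m•o) (m•v) v' ≤ 4θ`.  By `exc_split` for `exc o u p = 0` and
`u'`, either `exc u' u p ≤ 2θ`, and then `exc v' (m•v) p ≤ 2θ + 1002θ + 1000θ`
(`exc_move_left/right`), `exc (m•o) (m•v) p ≤ 2008θ` and `near_geod` gives the first alternative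
with `m' = m`; or `exc o u' p ≤ 2θ`.  In the second case, by `exc_split` with `q₁`, either
`exc q₁ u' p ≤ 4θ`, and then `p` is at distance `≤ 3θ` of a projection of `p` on `S B` (see
`near_axis7` in `T7.lean`); or `exc o q₁ p ≤ 4θ`, and then `dist p q₁ ≤ 12 θ` since `exc y u p = 0`,
`exc o u y = 0`, `dist q₁ y ≤ 8θ`.  So the second alternative holds with `y = u`, `z = v`,
`m' = m`. -/
def S_d1 : Prop := ∀ {Γ : Type} [Group Γ] {W : WNorm Γ} {𝒜 : Type} [MulAction Γ 𝒜]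
  (Y : Sys Γ W 𝒜) (R : Circ Y), 10 ^ 6 * Y.θ ≤ R.ρ → ∀ {o u v p : Pt W} {m : Γ},
  m ∈ R.N → Red R.N o u → Red R.N o v → dist u (m • v) ≤ 500 * Y.θ → exc o u p = 0 →
  (∃ m' ∈ R.N, ∃ q, exc o v q = 0 ∧ dist p (m' • q) ≤ 2100 * Y.θ) ∨
  (∃ B, ∃ m' ∈ R.N, ∃ y z, exc o u y = 0 ∧ exc o v z = 0 ∧
    R.ρ / 2 - 600 * Y.θ ≤ pd (Y.S B) o y ∧ R.ρ / 2 - 600 * Y.θ ≤ pd (Y.S B) (m' • o) (m' • z) ∧
    ∃ s ∈ Y.S B, dist p s ≤ 20 * Y.θ)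

/-- D2 (the top of a triangle of the quotient).  `Cfg` is the structure of `TH68/T7.lean`: minimal
segments `[x, y₁]`, `[y₂, z₁]`, `[z₂, w]`, jumps `dist y₁ y₂, dist z₁ z₂ ≤ 200θ` and `w = n • x`,
`n ∈ N`.  There are a point `y` of the first segment and a point `z` of the last one which are near
modulo `N`, and `y` is not much lower than `y₁`.

Proof by strong induction on `nd y₂ z₁` (compare `claim` in `T7.lean`).  Let `T = dist y₂ z₁`.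
*`n = 1`.*  If `dist x y₁ ≤ 2T + ρ` take `y = x`, `z = w = x`.  Otherwise take `y` with `exc x y₁ y = 0`,
`dist y y₁ = ⌈T + 500θ⌉`; by `exc_split` with `z₂` (`dist y₁ z₂ ≤ T + 400θ`) `exc x z₂ y ≤ 2δ`, and
`near_geod`.
*`n ≠ 1`.*  D0 for the polygon `x, y₁, y₂, z₁, z₂, w` (`k = 5`) gives `A, r, q₁, q₂, a ≤ b`.  As in
`claim` of `T7.lean`, `Red.bound` shows that `q₁`, `q₂` are not both `432θ`-near (in the sense of
`exc`) the same minimal side; this excludes `(a, b) = (0,0), (0,1), (1,1), (1,2), (2,2), (2,3),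
(3,3), (3,4), (4,4)`.
The remaining cases.  Let `y_A` be a projection of `y₁`, `τ = dist y₁ y_A`.  If `a = 0` then
`dist q₁ y₁ ≤ pd_A x y₁ + θ + τ ≤ ρ/2 + 7θ + τ` (B2).
`(0,2)`: take `y' ∈ [x, y₁]` with `dist q₁ y' ≤ 18θ`, `t₂ ∈ [y₂, z₁]` with `dist q₂ t₂ ≤ 18θ`; use the
induction hypothesis for `Cfg x y' (r⁻¹•t₂) (r⁻¹•z₁) (r⁻¹•z₂) (r⁻¹•w)`, where
`dist y' (r⁻¹•t₂) ≤ 87θ` and `T' = dist t₂ z₁ = T - dist y₂ t₂`.  Let `y₂'` be a projection of `y₂`: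
`dist y₂' y_A ≤ 201θ`, `dist q₁ y₂' ≤ ρ/2 + 208θ`, so `dist y₂' q₂ ≥ ρ/2 - 260θ`, and since `q₂ ∈ S A`
`dist y₂ q₂ ≥ dist y₂ y₂' + dist y₂' q₂ - θ ≥ τ + ρ/2 - 662θ`; so
`dist y' y₁ ≤ ρ/2 + τ + 25θ ≤ 2 dist y₂ t₂`, and the sum is right.
`(0,3)`: `dist q₂ z₂ ≤ 216θ`; `y ∈ [x, y₁]` with `dist q₁ y ≤ 18θ`, `z = z₂`, `m' = r⁻¹`; here
`τ ≤ dist y₁ q₂ + θ ≤ T + 617θ`.
`(0,4)`: `y ∈ [x,y₁]` near `q₁`, `z ∈ [z₂, w]` near `q₂`, `m' = r⁻¹` if `τ ≤ T + 450θ`.  If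
`τ > T + 450θ`: `pd_A y₁ z₂ ≤ 3θ` (B1), `pd_A x y₁`, `pd_A z₂ w ≥ ρ/2 - 70θ`.  Let `z_A` be a
projection of `z₂`.  Take `y ∈ [x, y₁]` with `dist y y₁ = ⌈T + 430θ⌉` (`≤ dist x y₁`).  By `exc_split` with
`y_A`, `exc y_A y₁ y ≤ 2θ`; so `exc z_A y₁ y ≤ 10θ`, by `exc_split` with `z₂` `exc z_A z₂ y ≤ 12θ`, so
`exc z₂ w y ≤ 16θ` and `near_geod` gives `z` with `m' = 1`.
`(1,3)`: `y = y₁`, `z = z₂`, `m' = r⁻¹`.
`(1,4)`: `y = y₁`, `z ∈ [z₂, w]` near `q₂`, `m' = r⁻¹`.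
`(2,4)`: `t₁ ∈ [y₂, z₁]` near `q₁`, `z' ∈ [z₂, w]` near `q₂`; induction hypothesis for
`Cfg x y₁ y₂ t₁ (r⁻¹•z') (r⁻¹•w)`, with `dist y₂ t₁ < T` (otherwise `q₁` is near `z₂` and `Red.bound`
for `[z₂, w]` gives a contradiction). -/
def S_d2 : Prop := ∀ {Γ : Type} [Group Γ] {W : WNorm Γ} {𝒜 : Type} [MulAction Γ 𝒜]
  (Y : Sys Γ W 𝒜) (R : Circ Y), 10 ^ 6 * Y.θ ≤ R.ρ → ∀ {x y₁ y₂ z₁ z₂ w : Pt W},
  Cfg R.N (200 * Y.θ) x y₁ y₂ z₁ z₂ w →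
  ∃ y z, ∃ m ∈ R.N, exc x y₁ y = 0 ∧ exc z₂ w z = 0 ∧ dist y (m • z) ≤ 500 * Y.θ ∧
    dist y y₁ ≤ 2 * dist y₂ z₁ + R.ρ

/-- D3 (near pairs).  From D2 for the configuration `o, u, u, m•v, m•v, m•o`: it gives `y ∈ [o, u]`,
`z ∈ [o, v]`, `m₁` with `dist y (m₁ • z) ≤ 500θ`.  The point `p` is lower than `y`: `exc o y p ≤ 2δ` by
`exc_split`, so it is `4δ`-near a point of `[o, y]`, to which D1 is applied. -/
def S_d3 : Prop := ∀ {Γ : Type} [Group Γ] {W : WNorm Γ} {𝒜 : Type} [MulAction Γ 𝒜]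
  (Y : Sys Γ W 𝒜) (R : Circ Y), 10 ^ 6 * Y.θ ≤ R.ρ → ∀ {o u v p : Pt W} {m : Γ},
  m ∈ R.N → Red R.N o u → Red R.N o v → Red R.N u (m • v) → exc o u p = 0 →
  2 * dist u (m • v) + R.ρ + 10 * Y.θ ≤ dist p u →
  (∃ m' ∈ R.N, ∃ q, exc o v q = 0 ∧ dist p (m' • q) ≤ 3000 * Y.θ) ∨
  (∃ B, ∃ m' ∈ R.N, ∃ y z, exc o u y = 0 ∧ exc o v z = 0 ∧
    R.ρ / 2 - 600 * Y.θ ≤ pd (Y.S B) o y ∧ R.ρ / 2 - 600 * Y.θ ≤ pd (Y.S B) (m' • o) (m' • z) ∧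
    ∃ s ∈ Y.S B, dist p s ≤ 30 * Y.θ)

end Pool.Agent.H343.AN
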