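import Pool.Agent.H343.AN.StD

set_option autoImplicit false
set_option linter.unusedSectionVars false

/-! # MP_aa4716_al, statements, part E : annuli of the quotient at scales `≥ ρ` -/

namespace Pool.Agent.H343.AN

open Pool.Agent.TH68 Pool.Agent.Helper97.Hyp

/-- E1 (matching of axes).  `A` is followed by `[o, u]` for a long time, far below `u` (`x` is the
projection of `u`).  Then a translate of `[o, v]` follows `A` for almost the same time.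

Proof.  Let `e` be a projection of `o`; `ℓ_e = dist o e`, `ℓ_x = dist o x`, `λ = pd_A o u ≥ ρ/4`.  By
B1 `exc o u e, exc o u x ≤ 4θ`, `ℓ_x ≥ ℓ_e + λ - 5θ`, `dist e x ≤ λ + θ ≤ ρ/2 + 7θ` (B2).  Let
`p_1, p_0, p_2` be points of `[o, u]` (`exc o u p_i = 0`, `exists_between`) with `dist o p_i = k_i`,
`k_1 = ⌈ℓ_e + 10^4 θ⌉`, `k_0 = ⌊(ℓ_e + ℓ_x)/2⌋`, `k_2 = ⌊ℓ_x - 10^4 θ⌋`.  By `exc_split` (with `x`,
then with `e`) `exc e x p_i ≤ 4θ`, so the projection `s_i` of `p_i` on `S A` satisfies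
`dist p_i s_i ≤ 3θ` (see `near_axis7` in `T7.lean`); hence `pd_A u p_i`, `pd_A o p_i ≥ 9000 θ`.
Also `dist p_i u ≥ dist x u - 4θ`.  Apply D3 to each `p_i`.
*Second alternative for some `i`*, with axis `B`.  `pd_B o u ≥ pd_B o y - 10θ` by B7.  If `B ≠ A`, B5
for `(o, u)`: either `pd_A u b ≤ 8θ` for all `b ∈ S B` and then `pd_A u p_i ≤ 38θ`, or
`pd_A o b ≤ 8θ` and then `pd_A o p_i ≤ 38θ`: contradictions.  So `B = A`, and by B7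
`pd_A (m'•o) (m'•v) ≥ ρ/2 - 610θ`.
*First alternative for all `i`*: `q_i ∈ [o, v]`, `m_i ∈ N`, `dist p_i (m_i • q_i) ≤ 3000θ`.  By
minimality (`Red.left`) `|dist o p_i - dist o q_i| ≤ 3000θ`, and by `order_close`
`dist q_i q_j ≤ |k_i - k_j| + 6002θ`, `dist p_i p_j ≤ |k_i - k_j| + 2θ`.  So
`dist (m_0 • q_1) (m_1 • q_1) ≤ ρ/2 + 13000θ < ρ - 51θ`, and `m_1 = m_0` by B3 and `pd_le_dist`;
similarly `m_2 = m_0`.  Then `pd_A (m_0•q_1) (m_0•q_2) ≥ pd_A p_1 p_2 - 6000θ ≥ λ - 26100θ` and B7. -/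
def S_e1 : Prop := ∀ {Γ : Type} [Group Γ] {W : WNorm Γ} {𝒜 : Type} [MulAction Γ 𝒜]
  (Y : Sys Γ W 𝒜) (R : Circ Y), 10 ^ 6 * Y.θ ≤ R.ρ → ∀ (A : 𝒜) {o u v x : Pt W} {m : Γ},
  m ∈ R.N → Red R.N o u → Red R.N o v → Red R.N u (m • v) → R.ρ / 4 ≤ pd (Y.S A) o u →
  IsProj Y.θ (Y.S A) u x → 2 * dist u (m • v) + R.ρ + 10 ^ 5 * Y.θ ≤ dist x u →
  ∃ m' ∈ R.N, pd (Y.S A) o u ≤ pd (Y.S A) (m' • o) (m' • v) + 10 ^ 5 * Y.θ

section defs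

variable {Γ : Type} [Group Γ] {W : WNorm Γ} {𝒜 : Type} [MulAction Γ 𝒜] {Y : Sys Γ W 𝒜}

open Classical in
/-- a minimal lift of a point of the quotient -/
noncomputable def lft (R : Circ Y) (W' : WNorm (Γ ⧸ R.N)) (x : Pt W') : Pt W :=
  if h : ∃ u : Pt W, prj W W' u = x ∧ dist (pt W 1) u = dist (pt W' 1) x ∧ Red R.N (pt W 1) u
  then h.choose else pt W 1

lemma lft_spec (R : Circ Y) {W' : WNorm (Γ ⧸ R.N)} (h : Quo W R.N W') (x : Pt W') :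
    prj W W' (lft R W' x) = x ∧ dist (pt W 1) (lft R W' x) = dist (pt W' 1) x ∧
      Red R.N (pt W 1) (lft R W' x) := by
  have h1 := exists_lift h x
  unfold lft
  rw [dif_pos h1]
  exact h1.choose_spec

/-- the cut-off function: `0` up to `ρ / 2 - ρ / 50`, `1` from `ρ / 2 - ρ / 100` -/
noncomputable def phi (ρ lam : ℝ) : ℝ := max 0 (min 1 ((lam - (ρ / 2 - ρ / 50)) / (ρ / 100)))

open Classical in
/-- how far the axis `A` pushes up the level `b` -/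
noncomputable def psi (R : Circ Y) (W' : WNorm (Γ ⧸ R.N)) (b : ℝ) (A : 𝒜) (x : Pt W') : ℝ :=
  if ent R A ≤ b then
    phi R.ρ (pd (Y.S A) (pt W 1) (lft R W' x)) *
      max 0 (ent R A + pd (Y.S A) (pt W 1) (lft R W' x) - b)
  else 0

/-- the cutting level -/
noncomputable def bet (R : Circ Y) (W' : WNorm (Γ ⧸ R.N)) (b : ℝ) (x : Pt W') : ℝ :=
  b + ⨆ A, psi R W' b A x

open Classical in
/-- the cutting point, on the chosen minimal segment -/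
noncomputable def zed (R : Circ Y) (W' : WNorm (Γ ⧸ R.N)) (b : ℝ) (x : Pt W') : Pt W :=
  if h : ∃ w : Pt W, exc (pt W 1) (lft R W' x) w = 0 ∧
      dist (pt W 1) w = (⌊bet R W' b x⌋₊ : ℝ)
  then h.choose else pt W 1

/-- points of circles with entry level `≤ b`, above the level `b + 2 s` -/
def SigOne (R : Circ Y) (W' : WNorm (Γ ⧸ R.N)) (b s : ℝ) : Set (Pt W') :=
  {z | b + 2 * s ≤ dist (pt W' 1) z ∧ ∃ A, ent R A ≤ b ∧ ∃ w : Pt W, prj W W' w = z ∧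
    Red R.N (pt W 1) w ∧ ∃ q ∈ Y.S A, dist w q ≤ 10 ^ 4 * Y.θ}

end defs

/-- E2 (elementary properties of the cutting level).  `psi ≥ 0`; `pd_A 1 (lft x) ≤ ρ/2 + 6θ` by B2, so
`psi ≤ ρ/2 + 6θ`; hence the supremum is over a bounded set (if `𝒜` is empty it is `0`).  If
`b + ρ ≤ dist 1 x` then `zed` exists (`exists_between`) and is a minimal lift of its projection
(`Red.left`). -/
def S_e2 : Prop := ∀ {Γ : Type} [Group Γ] {W : WNorm Γ} {𝒜 : Type} [MulAction Γ 𝒜]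
  (Y : Sys Γ W 𝒜) (R : Circ Y) (W' : WNorm (Γ ⧸ R.N)), Quo W R.N W' → 10 ^ 6 * Y.θ ≤ R.ρ →
  ∀ (b : ℝ) (x : Pt W'), (∀ A, 0 ≤ psi R W' b A x ∧ psi R W' b A x ≤ R.ρ / 2 + 6 * Y.θ) ∧
    BddAbove (Set.range fun A => psi R W' b A x) ∧ b ≤ bet R W' b x ∧
    bet R W' b x ≤ b + R.ρ / 2 + 6 * Y.θ ∧ (∀ A, b + psi R W' b A x ≤ bet R W' b x) ∧
    (∀ K, b ≤ K → (∀ A, b + psi R W' b A x ≤ K) → bet R W' b x ≤ K) ∧
    (0 ≤ b → b + R.ρ ≤ dist (pt W' 1) x → exc (pt W 1) (lft R W' x) (zed R W' b x) = 0 ∧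
      dist (pt W 1) (zed R W' b x) = (⌊bet R W' b x⌋₊ : ℝ) ∧ Red R.N (pt W 1) (zed R W' b x))

/-- E3 (the cutting level is almost constant on near pairs).  Proof: by symmetry and E2 it is enough
to show `psi b A x ≤ psi b A' y + 10^7 θ` for some `A'`, for every `A` with `psi b A x > 0`.  Then
`ent A ≤ b` and `λ = pd_A 1 u ≥ ρ/2 - ρ/50 ≥ ρ/4` with `u = lft x`; let `v = lft y`, `m ∈ N` with
`dist u (m•v) = dist x y` (`exists_smul`; `Red N u (m•v)` by `red_iff`).  For the projections `e` of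
`1` and `x'` of `u`: `dist 1 e ≤ ent A + 44θ` (B13 with `η = 4θ`, `Redu.sub`, B1), so
`dist x' u ≥ dist 1 x - b - ρ/2 - 60θ` and E1 applies: `m'`, and `A' = m'⁻¹ • A` satisfies
`pd_{A'} 1 v ≥ λ - 10^5 θ` (`pd_smul`), `ent A' = ent A` (B12).  The function
`λ ↦ phi ρ λ * max 0 (ent A + λ - b)` is monotone and `52`-Lipschitz on `[0, ρ/2 + 6θ]` since
`ent A ≤ b`. -/
def S_e3 : Prop := ∀ {Γ : Type} [Group Γ] {W : WNorm Γ} {𝒜 : Type} [MulAction Γ 𝒜]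
  (Y : Sys Γ W 𝒜) (R : Circ Y) (W' : WNorm (Γ ⧸ R.N)), Quo W R.N W' → 10 ^ 9 * Y.θ ≤ R.ρ →
  ∀ (b : ℝ) (x y : Pt W'), 0 ≤ b → b + 2 * dist x y + 3 * R.ρ ≤ dist (pt W' 1) x →
  b + 2 * dist x y + 3 * R.ρ ≤ dist (pt W' 1) y →
  |bet R W' b x - bet R W' b y| ≤ 10 ^ 7 * Y.θ

/-- E4 (the cutting map is a strong contraction on near pairs).

Proof.  `u = lft x`, `v = lft y`, `m ∈ N` with `dist u (m•v) = dist x y`, `p = zed x`, `q = zed y`,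
`ℓ(p) = dist 1 p = ⌊bet x⌋₊`, `ℓ(q) = dist 1 q = ⌊bet y⌋₊`, `|ℓ(p) - ℓ(q)| ≤ 10^7 θ + 1` (E3).  D3 for
`p` (`dist p u = dist 1 x - ℓ(p) ≥ 2 dist x y + ρ + 10θ`).
*First alternative*: `q' ∈ [1, v]`, `dist p (m'•q') ≤ 3000θ`; by minimality
`|dist 1 q' - ℓ(p)| ≤ 3000θ`, and `order_close` gives `dist q q' ≤ 10^7 θ + 4000 θ`.
*Second alternative*: axis `B`, `B' = m'⁻¹ • B`, `pd_B 1 u ≥ ρ/2 - 610θ`, `pd_{B'} 1 v ≥ ρ/2 - 610θ`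
(B7, `pd_smul`), `s ∈ S B` with `dist p s ≤ 30θ`; `ℓ = ent B = ent B'`.  Let `e, e'` be projections of
`1` on `S B`, `S B'`, `x_B`, `y_B` projections of `u` on `S B` and of `v` on `S B'`.
`|dist 1 e - ℓ|, |dist 1 e' - ℓ| ≤ 44θ` (B13).
(a) `ℓ ≤ b`: `phi = 1` for `B`, so `bet x ≥ ℓ + pd_B 1 u ≥ ℓ + ρ/2 - 610θ`, and since
`dist e s + dist s x_B ≤ dist e x_B + 62θ`, `dist p x_B ≤ 800θ`.  In the same way
`bet y ≥ ℓ + ρ/2 - 610θ`, so `|ℓ(q) - dist 1 y_B| ≤ 1.1 * 10^7 θ + 1000θ` and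
`dist q y_B ≤ 1.2 * 10^7 θ` (`order_close`).  B10 (with `K = 610θ`, `m = m'`, `u' = m'•v`,
`x' = m'•y_B`) gives `h` with `dist x_B (h m' • y_B) ≤ 2220θ`.
(b) `b < ℓ`: `bet x ≤ ℓ + 108θ`: let `psi b A x > 0`; `ent A ≤ b < ℓ` so `A ≠ B`; B5 for `(1, u)`: if
`A` comes first then B6 gives `ent A - 44θ + pd_A 1 u ≤ ℓ + 64θ`, so
`b + psi ≤ ent A + pd_A 1 u ≤ ℓ + 108θ`; if `B` comes first B6 gives
`ℓ - 44θ + ρ/2 - 610θ ≤ ent A + 64θ`, a contradiction.  So `dist e s ≤ 183θ`, `dist p e ≤ 213θ`.  In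
the same way `bet y ≤ ℓ + 108θ`, and `ℓ(q) ≥ ℓ - 10^7θ - 300θ`, so `dist q e' ≤ 10^7 θ + 500θ`
(`order_close`, `exc 1 v e' ≤ 4θ`).  B8 gives `g` with `dist e (g m' • e') ≤ 30θ`. -/
def S_e4 : Prop := ∀ {Γ : Type} [Group Γ] {W : WNorm Γ} {𝒜 : Type} [MulAction Γ 𝒜]
  (Y : Sys Γ W 𝒜) (R : Circ Y) (W' : WNorm (Γ ⧸ R.N)), Quo W R.N W' → 10 ^ 9 * Y.θ ≤ R.ρ →
  ∀ (b : ℝ) (x y : Pt W'), 0 ≤ b → b + 2 * dist x y + 3 * R.ρ ≤ dist (pt W' 1) x →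
  b + 2 * dist x y + 3 * R.ρ ≤ dist (pt W' 1) y →
  dist (prj W W' (zed R W' b x)) (prj W W' (zed R W' b y)) ≤ 10 ^ 8 * Y.θ

/-- E5 (the cutting points are in the thin annulus or in `SigOne`); `b` is a natural number.
Proof: `p = zed x`, `dist 1 (prj p) = ⌊bet⌋₊ ≥ b` (`red_iff`).  If this is `≥ b + 2s ≥ b + 1` there is
`A` with `psi b A x > bet - b - 1/2 > 0`; `ent A ≤ b`, `dist 1 p ≤ ent A + pd_A 1 u + 1/2`,
`dist 1 p > ent A`; as in E1 (`exc_split` with the projections of `1` and of `u`) `p` is `100θ`-near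
`S A`. -/
def S_e5 : Prop := ∀ {Γ : Type} [Group Γ] {W : WNorm Γ} {𝒜 : Type} [MulAction Γ 𝒜]
  (Y : Sys Γ W 𝒜) (R : Circ Y) (W' : WNorm (Γ ⧸ R.N)), Quo W R.N W' → 10 ^ 6 * Y.θ ≤ R.ρ →
  ∀ (b : ℕ) (s : ℝ) (x : Pt W'), 1 ≤ s → (b : ℝ) + R.ρ ≤ dist (pt W' 1) x →
  prj W W' (zed R W' b x) ∈ Ann W' b (2 * s) ∪ SigOne R W' b s ∧
    (b : ℝ) ≤ dist (pt W' 1) (prj W W' (zed R W' b x)) ∧
    exc (pt W' 1) x (prj W W' (zed R W' b x)) = 0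

/-- E6 (chains on a circle, in coordinates).
Proof.  Suppose `|y 0 - y i| > 6 s`, with `i` minimal; then `|y 0 - y j| ≤ 7.1 s` for `j ≤ i`.
If `E i = E 0`: `y 0`, `y i` are on different sides of `E 0` (otherwise
`|y 0 - y i| ≤ hi - lo ≤ 2.1 s`), so some `y j` satisfies `|y j - E 0| ≤ 1.1 s < lo`.
If `E i ≠ E 0`: all `E j`, `j ≤ i`, are in `{E 0, E i}` (three distinct points of `O` are not
contained in an interval of length `ρ' + 17 s`).  Let `j` be the last index `≤ i` with `E j = E 0`, so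
`E (j+1) = E i`.  If, say, `E 0 < E i`, then `E 0 < y 0, y j` and `y (j+1), y i < E i`, so
`|y 0 - y j|, |y (j+1) - y i| ≤ hi - lo ≤ 2.1 s` and `|y j - y (j+1)| ≤ 1.1 s`. -/
def S_orb : Prop := ∀ (O : Set ℝ) (ρ' s lo hi : ℝ), 0 < s → 1000 * s ≤ ρ' →
  (∀ E ∈ O, ∀ E' ∈ O, E ≠ E' → ρ' ≤ |E - E'|) → hi - lo ≤ 21 / 10 * s → 3 / 2 * s ≤ lo →
  hi ≤ ρ' / 2 + s → ∀ (n : ℕ) (y E : ℕ → ℝ),
  (∀ i ≤ n, E i ∈ O ∧ lo ≤ |y i - E i| ∧ |y i - E i| ≤ hi) →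
  (∀ i ≤ n, ∀ E' ∈ O, lo ≤ |y i - E'|) → (∀ i < n, |y i - y (i + 1)| ≤ 11 / 10 * s) →
  ∀ i ≤ n, |y 0 - y i| ≤ 6 * s

/-- E7 (two-colouring of the circles at small scale).  Colour `z` by the parity of
`⌊dist 1 z / (2 s)⌋`.

Proof.  Let `z_0, z_1, …` be a monochromatic `s`-chain in `SigOne b s`.  The index
`j = ⌊dist 1 z_i / (2 s)⌋` is constant.
*Lifting* (as in C3): there are an axis `A`, `ent A ≤ b`, lifts `w_i` of `z_i`, `dist w_i w_{i+1} ≤ s`,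
and `m_i ∈ N` with `Red N (m_i•1) w_i` and `q ∈ S A` with `dist w_i q ≤ 10^4 θ`; the axis is constant
by B11 with `t = 10^4 θ`, `T = s`, `h = 2 s - 1.1 * 10^4 θ`, using (*).
(*) Let `e_i`, `a_i` be projections of `m_i•1`, `w_i` on `S A`.  `pd_A (m_i•1) w_i > 3θ`: otherwise
`dist w_i e_i ≤ (10^4 + 5)θ`, `Redu N (3 * 10^4 θ) (m_i•1) e_i`, and by B13
`dist 1 z_i = dist (m_i•1) w_i ≤ ent A + 5 * 10^4 θ < b + 2 s`.  So by B1 and B13 (`η = 4θ`)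
`|dist (m_i•1) e_i - ent A| ≤ 44θ` and
`|pd_A (m_i•1) w_i - (dist 1 z_i - ent A)| ≤ 1.1 * 10^4 θ`.
*Coordinates.*  `y_i = crd A w_i`, `O = {crd A (g•e_0) | g ∈ G A}`; by B8 there is `g_i ∈ G A` with
`dist e_i (g_i•e_0) ≤ 30θ`; `E_i = crd A (g_i•e_0)`.  `||y_i - E_i| - (dist 1 z_i - ent A)| ≤
1.2 * 10^4 θ`.  For every `g ∈ G A`, by minimality
`dist (m_i•1) w_i ≤ dist (g m_0•1) w_i ≤ dist (m_0•1) e_0 + dist (g•e_0) a_i + dist a_i w_i`, so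
`|y_i - crd A (g•e_0)| ≥ dist 1 z_i - ent A - 1.2 * 10^4 θ`.  Use E6 with `ρ' = ρ - 10θ`,
`lo = max (2 s j - ent A) (2 s) - 2 * 10^4 θ`,
`hi = min (2 s (j+1) - ent A + 2 * 10^4 θ) (ρ/2 + 2 * 10^4 θ)`; it gives `|y_0 - y_i| ≤ 6 s`, so
`dist z_0 z_i ≤ dist w_0 w_i ≤ 6 s + 3 * 10^4 θ ≤ 7 s`. -/
def S_e7 : Prop := ∀ {Γ : Type} [Group Γ] {W : WNorm Γ} {𝒜 : Type} [MulAction Γ 𝒜]
  (Y : Sys Γ W 𝒜) (R : Circ Y) (W' : WNorm (Γ ⧸ R.N)), Quo W R.N W' → 10 ^ 6 * Y.θ ≤ R.ρ →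
  ∀ (b s : ℝ), 10 ^ 6 * Y.θ ≤ s → s ≤ R.ρ / 10 ^ 5 → Col (SigOne R W' b s) 2 s (7 * s)

/-- E8 (all annuli at scales `≥ 8 ρ`).  Proof: if `a < 2T + 3ρ + 1` the annulus is contained in a ball
of radius `3T + 3ρ + 1` and `6T + 6ρ + 2 ≤ 7T`.  Otherwise `b = ⌊a - 2T - 3ρ⌋₊` and
`f x = prj (zed b x)` maps `Ann W' a T` to `Σ = Ann W' b (2s) ∪ SigOne b s` (E5), with
`dist (f x) (f y) ≤ 10^8 θ ≤ s` if `dist x y ≤ T` (E4) and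
`dist x (f x) ≤ a + T - b ≤ 3T + 3ρ + 1`.  `Col (Ann W' b (2s)) 2 (9s) (360 s)` by C7 (with `r = 9s`)
and `Col (SigOne b s) 2 s (7s)` (E7), so `Col Σ 2 s (376 s)` (A1).  A3 gives the bound
`376 s + 6T + 6ρ + 2 ≤ 7T`. -/
def S_e8 : Prop := ∀ {Γ : Type} [Group Γ] {W : WNorm Γ} {𝒜 : Type} [MulAction Γ 𝒜]
  (Y : Sys Γ W 𝒜) (R : Circ Y) (W' : WNorm (Γ ⧸ R.N)), Quo W R.N W' → 10 ^ 9 * Y.θ ≤ R.ρ →
  ∀ {σ s : ℝ}, ACol W σ 7 → 1 ≤ σ → 10 ^ 8 * Y.θ ≤ s → 10 ^ 4 * σ ≤ s → s ≤ R.ρ / 10 ^ 6 →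
  ∀ a T, 8 * R.ρ ≤ T → Col (Ann W' a T) 2 T (7 * T)

/-- E9 (the geometric theorem).  Proof: E8 with `s = 10^8 * max θ σ`; for
`10^6 * max θ σ ≤ T ≤ ρ / 10^5` C7 with `s = 50 * max θ σ`; for `ρ / 10^5 ≤ T ≤ 8ρ` use
`Ann W' a T ⊆ Ann W' a (8ρ)` and A4. -/
def S_geo : Prop := ∀ {Γ : Type} [Group Γ] {W : WNorm Γ} {𝒜 : Type} [MulAction Γ 𝒜]
  (Y : Sys Γ W 𝒜) (R : Circ Y) (W' : WNorm (Γ ⧸ R.N)), Quo W R.N W' →
  ∀ {σ : ℝ}, ACol W σ 7 → 1 ≤ σ → 10 ^ 16 * Y.θ ≤ R.ρ → 10 ^ 16 * σ ≤ R.ρ →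
  ACol W' (10 ^ 6 * max Y.θ σ) (10 ^ 7) ∧ ACol W' (8 * R.ρ) 7

end Pool.Agent.H343.AN
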