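import Pool.Agent.H343.AN.StE
import Pool.Graph.R_seed8.TH68.Limit

set_option autoImplicit false
set_option linter.unusedSectionVars false

/-! # MP_aa4716_al, statements, part F : one step of the construction, the limit group -/

namespace Pool.Agent.H343.AN

open Pool.Agent.TH68 Pool.Agent.Helper97.Hyp

/-- F1 (the rotations by `g ^ m` along the axes of a root `g`; `RD`, `D.rot`, `D.nk` of
`TH68/Rotm.lean`).

Proof.  By `D.mem_E` and the absence of involutions `D.E = zpowers g`, so that the points of the axis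
`A` are `(A.out * g ^ i) • o`, `i : ℤ` (`D.mem_ax`).  Put `D t = dist o (g ^ t • o)`, `D (-t) = D t`
(`disp_neg`).  There is a constant `c₀` (depending only on `D`) with
`|D (a + b) - D a - D b| ≤ c₀` for `a, b ≥ 0`: write `a = k s + r`, `b = k s' + r'` and use
`Lox.tl_sub`, `Lox.tl_add` (`Helper97/Hyp/Axis.lean`) for `g ^ k` and `D.dist_zpow_le`.  The system `Y`
is `D.sys` with `θ` replaced by a larger constant `θ₁ ≥ D.θ + 10 c₀` (independent of `m`).  For `m` large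
take `ρ = D m - c₀ ≥ D.low m - c₀` (`low_le`, `low_tendsto`), `N = D.nk m`, `G = D.rot m`.
* `far`: `D (m j) ≥ D m + D (m (j - 1)) - c₀ ≥ D m - c₀` (`disp_ax`).
* `gap`: for `|j| ≥ 2`, `D (m j) ≥ 2 D m - 2 c₀ > 7/4 ρ`; so `r` is a rotation by `m`, and
  `D m = ρ + c₀`.
* `cob`: for `|t| ≤ m / 2`: `2 D t ≤ D (2 |t|) + c₀ ≤ D m - D (m - 2 |t|) + 2 c₀ ≤ D m + 2 c₀`.
* `wind`: `(D.spin hM).swind`, as in `RD.spn`.
* `crd A w = sign i * D |i|` where `(A.out * g ^ i) • o` is a chosen projection of `w`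
  (`le_pd_of_proj`, `pd_le_of_proj`; the distance of the points `i`, `j` of the axis is
  `D (i - j)`, and `||crd i - crd j| - D (i - j)| ≤ c₀`).
* `fix`, `conj`, `G_le`, `normal`: `rot_fix`, `rot_conj`, `rot_le`, `nk_normal`. -/
def S_f1 : Prop := ∀ {Γ : Type} [Group Γ] {W : WNorm Γ} (D : RD Γ W), (∀ x : Γ, orderOf x ≠ 2) →
  ∃ Y : Sys Γ W (Γ ⧸ D.E), ∀ ρ₀ : ℝ, ∃ m₀ : ℕ, ∀ m : ℕ, m₀ ≤ m →
    ∃ R : Circ Y, R.N = D.nk m ∧ ρ₀ ≤ R.ρ

/-- the class of groups used in the construction -/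
structure Cls (Γ : Type) [Group Γ] (W : WNorm Γ) : Prop where
  hyp : ∃ δ, GHyp (Pt W) δ
  kgrp : KGrp Γ
  odd : ∀ x : Γ, orderOf x ≠ 2
  ac : ∃ σ, ACol W σ 7

/-- F2 (one step): killing a large prime power of a root of `x`. -/
def S_f2 : Prop := ∀ {Γ : Type} [Group Γ] (W : WNorm Γ), Cls Γ W → ∀ x : Γ, ¬ IsOfFinOrder x →
  ∃ τ : ℝ, ∀ R' : ℝ, ∃ k : ℕ, 0 < k ∧ ∃ N : Subgroup Γ, ∃ _ : N.Normal, x ^ k ∈ N ∧
    (∀ n ∈ N, n ≠ 1 → R' ≤ (W.ℓ n : ℝ)) ∧ ∃ W' : WNorm (Γ ⧸ N), Quo W N W' ∧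
      Cls (Γ ⧸ N) W' ∧ ACol W' τ (10 ^ 7)

/-- the commutator (it is `⁅x, y⁆`, `commutatorElement_def`) -/
def cmm {G : Type*} [Group G] (x y : G) : G := x * y * x⁻¹ * y⁻¹

/-- F3 (infiniteness).  Proof: otherwise `fin_sylow` of `TH68/Fin.lean` shows that `G` is a `Z`-group, so
its commutator subgroup is cyclic (`IsZGroup.isCyclic_commutator`), hence commutative. -/
def S_f3 : Prop := ∀ {G : Type} [Group G], (∀ x : G, x = 1 ∨ (orderOf x).Prime) →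
  (∀ x : G, orderOf x ≠ 2) →
  (∀ x : G, (orderOf x).Prime → ∀ y, Commute x y → y ∈ Subgroup.zpowers x) →
  ∀ x y z w : G, cmm (cmm x y) (cmm z w) ≠ 1 → Infinite G

/-- F4a (trees).  Proof: let `x_0, …, x_n` be a `T`-chain in `Ann W a T`; the Gromov products at `1`
satisfy `(x_i|x_{i+1}) ≥ a - T / 2`, so `(x_0|x_n) ≥ a - T / 2` by `GHyp _ 0` and
`dist x_0 x_n ≤ 3 T`.  One colour is enough. -/
def S_f4a : Prop := ∀ {Γ : Type} [Group Γ] (W : WNorm Γ), GHyp (Pt W) 0 → ACol W 1 7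

/-- F4b (the free group of rank 2): the word norm (`FreeGroup.norm`) is `0`-hyperbolic (the Gromov
product of `x` and `y` at `1` is the length of the longest common prefix of the reduced words).
Prefixes of reduced words give `geod`. -/
def S_f4b : Prop := ∃ W : WNorm (FreeGroup (Fin 2)), GHyp (Pt W) 0 ∧
  (∀ g, W.ℓ g = 1 → ∃ i, g = FreeGroup.of i ∨ g⁻¹ = FreeGroup.of i) ∧
  ∀ i, W.ℓ (FreeGroup.of i) = 1

/-- F4 (the initial group).  Free groups are torsion free, so `KGrp` is clear from `S_f4b`. -/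
def S_f4 : Prop := ∃ W : WNorm (FreeGroup (Fin 2)), Cls (FreeGroup (Fin 2)) W ∧
  (∀ g, W.ℓ g = 1 → ∃ i, g = FreeGroup.of i ∨ g⁻¹ = FreeGroup.of i) ∧
  (∀ i, W.ℓ (FreeGroup.of i) = 1)

/-- a stage of the construction: a quotient of a fixed group, in the class -/
structure Stage {Γ : Type} [Group Γ] (W : WNorm Γ) where
  K : Subgroup Γ
  normal : K.Normal
  V : WNorm (Γ ⧸ K)
  quo : Quo W K V
  cls : Cls (Γ ⧸ K) V

attribute [instance] Stage.normal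

/-- F5 (one step, for quotients of a fixed group).  Proof: if `x` has infinite order in `Γ ⧸ S.K` apply
F2 to `Γ ⧸ S.K` and transport the result to `Γ ⧸ pull K N` (see `TH68/Limit.lean`: `WNorm.transport`,
`HypGroup.of_equiv`, `KGrp.of_equiv`, `St.pull`, `St.pull_kgrp`); otherwise `S' = S`. -/
def S_f5 : Prop := ∀ {Γ : Type} [Group Γ] {W : WNorm Γ} (S : Stage W) (x : Γ), ∃ τ : ℝ, ∀ R' : ℝ,
  ∃ S' : Stage W, S.K ≤ S'.K ∧ (∃ k : ℕ, 0 < k ∧ x ^ k ∈ S'.K) ∧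
    (∀ n ∈ S'.K, n ∉ S.K → R' ≤ (S.V.ℓ (n : Γ ⧸ S.K) : ℝ)) ∧ ACol S'.V τ (10 ^ 7)

/-- F6 (the limit group).

Proof.  Let `L`, `C'` be the constants of `S_A5` for `k = 4`, `C = 10 ^ 7`.  Let `f : ℕ → Γ` be
surjective.  Choose stages `S_i` and numbers `τ_i`, `R_i` inductively: `S_0` is the trivial stage
(`K = ⊥`, see `St` in `TH68/Limit.lean`; or transport `W` to `Γ ⧸ ⊥`), `τ_{i+1} ≥ τ_i + 1`, `τ_{i+1} ≥ 1`
larger than the number given by F5 for `S_i` and `f i`,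
`R_i ≥ 4 L τ_{i+1} + W.ℓ c + 1`, and `S_{i+1}` the stage given by F5 for `R_i` (so that
`ACol S_{i+1}.V τ_{i+1} (10^7)`).  `K = ⋃ K_i`.  The norm `V` on `Γ ⧸ K` is given by `quot_norm`
(`TH68/T7.lean`).
(1) If `n ∈ K`, `n ∉ K_i` then `V_i.ℓ n ≥ R_i` (let `j ≥ i` be the index with `n ∈ K_{j+1} \ K_j`; then
`V_i.ℓ n ≥ V_j.ℓ n ≥ R_j ≥ R_i`, the first inequality by `Quo`).  So `c ∉ K` (`c ≠ 1`, `i = 0`).
(2) `x ^ r ∈ K → x ^ r ∈ K_i` for some `i`; the properties of `KGrp` and `odd` pass to the limit, see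
`St.limit` in `TH68/Final.lean`.
(3) `Col (closedBall x₀ (L s)) 4 s (10^7 s)` for `τ_i ≤ s ≤ τ_{i+1}`, `i ≥ 1`: by `S_A6` and
`ACol S_i.V τ_i`, `Col univ 4 s (10^7 s)` in `Pt S_i.V`.  Let `x₀' : Pt S_i.V` be a lift of `x₀`, and for
`y` in the ball let `f y` be a lift with `dist x₀' (f y) = dist x₀ y ≤ L s`.  `f` is isometric: there is
`n` in the kernel of `Γ ⧸ K_i → Γ ⧸ K` with `dist (f y) (n • f z) = dist y z`; if `n ≠ 1` then
`R_i ≤ dist (f z) (n • f z) ≤ 4 L s` by (1), a contradiction.  Use `S_A3` with `R = 0`.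
(4) `S_A5` with `τ = τ_1`. -/
def S_f6 : Prop := ∀ {Γ : Type} [Group Γ] [Countable Γ] (W : WNorm Γ), Cls Γ W →
  ∀ c : Γ, c ≠ 1 → ∃ K : Subgroup Γ, ∃ _ : K.Normal, c ∉ K ∧
    (∀ x : Γ ⧸ K, x = 1 ∨ (orderOf x).Prime) ∧ (∀ x : Γ ⧸ K, orderOf x ≠ 2) ∧
    (∀ x : Γ ⧸ K, (orderOf x).Prime → ∀ y, Commute x y → y ∈ Subgroup.zpowers x) ∧
    ∃ V : WNorm (Γ ⧸ K), Quo W K V ∧
      ∃ τ C' : ℝ, ∀ s, τ ≤ s → Col (Set.univ : Set (Pt V)) 4 s (C' * s)

/-- F7 (from colourings to the families of the frozen statement).  Proof: the distance of the graph is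
the norm (paths give `≤`, `V.geod` gives a path).  Let `r > 0`, let `c` be the colouring of `Col` at the
scale `s = max r τ'` if `1 ≤ r`, `τ' = max τ 1`, and `U i` the set of the classes of the relation
`ReflTransGen (Stp univ c s)` of colour `i`; the constant is `C = max C' 1 * τ'`.  If `r < 1` take
singletons. -/
def S_f7 : Prop := ∀ {G : Type} [Group G] (V : WNorm G) (S : Finset G), (∀ s ∈ S, V.ℓ s ≤ 1) →
  (∀ g, V.ℓ g = 1 → g ∈ S ∨ g⁻¹ ∈ S) → Subgroup.closure (S : Set G) = ⊤ ∧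
  ((∃ τ C' : ℝ, ∀ s, τ ≤ s → Col (Set.univ : Set (Pt V)) 4 s (C' * s)) →
    ∃ n : ℕ, ∃ C : ℝ, 0 < C ∧ ∀ r : ℝ, 0 < r →
      ∃ U : Fin (n + 1) → Set (Set G),
        (∀ x : G, ∃ i : Fin (n + 1), ∃ A ∈ U i, x ∈ A) ∧
        (∀ i : Fin (n + 1), ∀ A ∈ U i, ∀ x ∈ A, ∀ y ∈ A,
          (((SimpleGraph.fromRel (fun x y : G => x⁻¹ * y ∈ (S : Set G))).dist x y : ℕ) : ℝ)
            ≤ C * r) ∧
        (∀ i : Fin (n + 1), ∀ A ∈ U i, ∀ B ∈ U i, A ≠ B → ∀ x ∈ A, ∀ y ∈ B,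
          r < (((SimpleGraph.fromRel (fun x y : G => x⁻¹ * y ∈ (S : Set G))).dist x y : ℕ) : ℝ)))

end Pool.Agent.H343.AN
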